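import Pool.Agent.H89.DP.Up3

/-! Rank sizes of differential posets (MP_987dc0_co): comparison principle for the moment recursion. -/

set_option autoImplicit false

namespace Pool.Agent.H89.DP

theorem cmp (r : ℚ) (hr : 0 ≤ r) (x b g : ℕ → ℚ) (x0 : x 0 = 0) (x1 : x 1 = 0) (b0 : b 0 = 0)
    (g0 : g 0 = 0) (g1 : g 1 = 0) (hb : ∀ n, b n + r * x n ≤ b (n + 1))
    (hg : ∀ n, g (n + 2) ≤ g n + 2 * r * b (n + 2) + r * (r - 1) * x (n + 2))
    (hx : ∀ n : ℕ, 2 * ((n : ℚ) + 1) * b (n + 2) - g n ≤ ((n : ℚ) + 1) * (n + 2) * x (n + 2)) :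
    ∀ n, 0 ≤ x (n + 2) := by
  have b1 : 0 ≤ b 1 := by have := hb 0; rw [b0, x0] at this; simpa using this
  have b2 : 0 ≤ b 2 := by have := hb 1; rw [x1] at this; simp only [Nat.reduceAdd] at this; linarith
  have Inv : ∀ n : ℕ, (0 ≤ b (n + 2) ∧ b (n + 2) ≤ ((n : ℚ) + 2) * x (n + 2) ∧
      g n ≤ ((n : ℚ) + 1) * b (n + 2)) ∧ (0 ≤ b (n + 3) ∧ b (n + 3) ≤ ((n : ℚ) + 3) * x (n + 3) ∧
      g (n + 1) ≤ ((n : ℚ) + 2) * b (n + 3)) := by
    intro n
    induction n with
    | zero =>
      have h2 := hx 0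
      simp only [Nat.cast_zero, zero_add] at h2
      rw [g0] at h2
      have x2 : 0 ≤ x 2 := by linarith
      have h3 := hb 2
      simp only [Nat.reduceAdd] at h3
      have b3 : 0 ≤ b 3 := by
        have := mul_nonneg hr x2
        linarith
      have h4 := hx 1
      simp only [Nat.cast_one, Nat.reduceAdd] at h4
      rw [g1] at h4
      refine ⟨⟨b2, ?_, ?_⟩, ⟨b3, ?_, ?_⟩⟩
      · simp only [Nat.cast_zero, zero_add]; linarith
      · simp only [Nat.cast_zero, zero_add]; rw [g0]; linarith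
      · simp only [Nat.cast_zero, zero_add]; linarith
      · simp only [Nat.cast_zero, zero_add]; rw [g1]; linarith
    | succ n ih =>
      obtain ⟨⟨p1, p2, p3⟩, ⟨q1, q2, q3⟩⟩ := ih
      have hn : (0 : ℚ) ≤ n := by positivity
      have x2 : 0 ≤ x (n + 2) := by
        have : 0 ≤ ((n : ℚ) + 2) * x (n + 2) := p1.trans p2
        exact nonneg_of_mul_nonneg_right this (by linarith)
      have x3 : 0 ≤ x (n + 3) := by
        have : 0 ≤ ((n : ℚ) + 3) * x (n + 3) := q1.trans q2
        exact nonneg_of_mul_nonneg_right this (by linarith)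
      have hb3 := hb (n + 3)
      have hb2 := hb (n + 2)
      rw [show n + 2 + 1 = n + 3 by ring] at hb2
      rw [show n + 3 + 1 = n + 4 by ring] at hb3
      have hg2 := hg n
      have b4 : 0 ≤ b (n + 4) := by
        have := mul_nonneg hr x3
        linarith
      have J : g (n + 2) ≤ ((n : ℚ) + 3) * b (n + 4) := by
        have s1 : ((n : ℚ) + 3 + r) * b (n + 3) ≤ ((n : ℚ) + 3) * b (n + 4) := by
          have t1 : ((n : ℚ) + 3) * (b (n + 3) + r * x (n + 3)) ≤ ((n : ℚ) + 3) * b (n + 4) :=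
            mul_le_mul_of_nonneg_left hb3 (by linarith)
          have t2 : r * b (n + 3) ≤ r * (((n : ℚ) + 3) * x (n + 3)) := mul_le_mul_of_nonneg_left q2 hr
          linarith
        have s2 : ((n : ℚ) + 3 + r) * (b (n + 2) + r * x (n + 2)) ≤ ((n : ℚ) + 3 + r) * b (n + 3) :=
          mul_le_mul_of_nonneg_left hb2 (by linarith)
        have s3 : r * b (n + 2) ≤ r * (((n : ℚ) + 2) * x (n + 2)) := mul_le_mul_of_nonneg_left p2 hr
        have s4 : 0 ≤ r * x (n + 2) := mul_nonneg hr x2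
        nlinarith
      have h4 := hx (n + 2)
      push_cast at h4
      rw [show n + 2 + 2 = n + 4 by ring] at h4
      have x4 : b (n + 4) ≤ ((n : ℚ) + 4) * x (n + 4) := by
        have t : ((n : ℚ) + 3) * b (n + 4) ≤ ((n : ℚ) + 3) * (((n : ℚ) + 4) * x (n + 4)) := by
          linarith
        exact le_of_mul_le_mul_left t (by linarith)
      refine ⟨⟨q1, ?_, ?_⟩, ⟨b4, ?_, ?_⟩⟩
      · push_cast; linarith
      · push_cast; linarith
      · push_cast
        rw [show n + 1 + 3 = n + 4 by ring]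
        linarith
      · push_cast
        rw [show n + 1 + 3 = n + 4 by ring, show n + 1 + 1 = n + 2 by ring]
        linarith
  intro n
  have h := (Inv n).1
  have : 0 ≤ ((n : ℚ) + 2) * x (n + 2) := h.1.trans h.2.1
  exact nonneg_of_mul_nonneg_right this (by positivity)

/-- the lower bound for all ranks -/
theorem lower_all (hFA : S_FA) (hG1 : S_G1) (hG2 : S_G2) (hM : S_MOM) (hA : S_ASY) (hC : S_CNV)
    (hU : S_YUP) (n : ℕ) : ∃ K : ℚ, ∀ r : ℕ, 1 ≤ r → ∀ a : ℕ → ℕ, D r a →
      (y r (n + 2) : ℚ) ≤ a (n + 2) + K * (r : ℚ) ^ n := by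
  obtain ⟨c, hc⟩ := hA
  obtain ⟨K, hK⟩ := hU hC n
  refine ⟨K + c (n + 2), ?_⟩
  intro r hr a ha
  obtain ⟨P, _, _, _, ρ, hP, hq⟩ := ha
  obtain ⟨A, B, G, hA, A0, A1, B0, G0, G1, hB, hG, hX⟩ := hM hFA hG1 hG2 r P ρ hP
  obtain ⟨L, M, H, L0, L1, M0, H0, H1, hM, hH, hL, hform⟩ := hc r hr
  have key := cmp (r : ℚ) (by positivity) (fun n => A n - L n) (fun n => B n - M n)
    (fun n => G n - H n) (by simp [A0, L0]) (by simp [A1, L1]) (by simp [B0, M0])
    (by simp [G0, H0]) (by simp [G1, H1])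
    (by
      intro n
      have h1 := hB n
      have h2 := hM n
      linarith)
    (by
      intro n
      have h1 := hG n
      have h2 := hH n
      linarith)
    (by
      intro n
      have h1 := hX n
      have h2 := hL n
      linarith) n
  rw [hform n, hA (n + 2), hq (n + 2)] at key
  have h5 := hK r hr
  linarith

end Pool.Agent.H89.DP
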