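import Mathlib

/-!
# Rank sizes of differential posets (MP_987dc0_co)
Definitions and statements of the parts. `m_r(n)` is the rank size of `Y^r` for `n ≤ 3`, and smaller for
every `n ≥ 4` and all large `r`.
-/

set_option autoImplicit false

namespace Pool.Agent.H89.DP

/-- `P` is `r`-differential with rank function `ρ` (the conditions of the problem) -/
structure IsDiff (r : ℕ) (P : Type) [PartialOrder P] [OrderBot P] [LocallyFiniteOrder P]
    (ρ : P → ℕ) : Prop where
  bot : ρ ⊥ = 0
  cov : ∀ x y : P, x ⋖ y → ρ y = ρ x + 1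
  fin : ∀ n : ℕ, {x : P | ρ x = n}.Finite
  deg : ∀ x : P, {z : P | x ⋖ z}.Finite ∧ {z : P | x ⋖ z}.ncard = {z : P | z ⋖ x}.ncard + r
  pair : ∀ x y : P, x ≠ y →
    {z : P | z ⋖ x ∧ z ⋖ y}.ncard = {z : P | x ⋖ z ∧ y ⋖ z}.ncard

/-- there is an `r`-differential poset with the rank sizes `a` -/
def D (r : ℕ) (a : ℕ → ℕ) : Prop :=
  ∃ (P : Type) (_ : PartialOrder P) (_ : OrderBot P) (_ : LocallyFiniteOrder P) (ρ : P → ℕ),
    IsDiff r P ρ ∧ ∀ n, {x : P | ρ x = n}.ncard = a n

/-- the number of `r`-tuples of partitions of total size `n`: the rank size of `Y^r` -/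
def y (r n : ℕ) : ℕ :=
  ∑ f ∈ Finset.Nat.antidiagonalTuple r n, ∏ i, Fintype.card (Nat.Partition (f i))

/-- the number of the elements covered by `x` -/
noncomputable def dn {P : Type} [PartialOrder P] (x : P) : ℕ := {z : P | z ⋖ x}.ncard

/-- STUB `DPO-PROD` (200 lines). Products. `(x, y) ⋖ (x', y')` iff `x ⋖ x'` and `y = y'` or vice versa
(`Prod.mk_covBy_mk_iff`). `ρ (x, y) = ρ x + ρ' y`. Up-set and down-set are disjoint unions; for the pairs:
common lower/upper covers of `(x, y) ≠ (x', y')`: if `x = x'` those of `y, y'` (and none moving `x`), similarly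
`y = y'`; if both differ there is a common lower cover iff `x ⋖ x'`, `y' ⋖ y` or vice versa (one), the same for
the upper ones. `LocallyFiniteOrder` of the product: `Prod.instLocallyFiniteOrder` (classical decidability). -/
def S_PROD : Prop := ∀ (r s : ℕ) (a b : ℕ → ℕ), D r a → D s b →
  D (r + s) (fun n => ∑ ij ∈ Finset.HasAntidiagonal.antidiagonal n, a ij.1 * b ij.2)

/-- STUB `DPO-YNG` (250 lines). Young's lattice is 1-differential, e.g. on the type `YoungDiagram` of Mathlib (a
distributive lattice), rank `card`. Rank sizes: bijection with partitions (`YoungDiagram.equivListSorted`, or any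
other model of Young's lattice, e.g. antitone finitely supported functions `ℕ → ℕ`: row lengths). Covers: one more
cell. A cell can be added in row `i + 1` iff one can be removed in row `i`; one can always be added in row 0. Common
lower (upper) covers of `μ ≠ ν` can only be `μ ⊓ ν` (`μ ⊔ ν`), and `card (μ ⊓ ν) + card (μ ⊔ ν) = card μ + card ν`. -/
def S_YNG : Prop := D 1 (fun n => Fintype.card (Nat.Partition n))

/-- STUB `DPO-BASE` (100 lines, adapt the library). The 3-differential poset of the library with 50 elements of rank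
4: `Pool/Graph/R_pool_sql_team_ae5b0c61/H16/DiffP.lean`, or `Pool/Graph/R_seed8/S10310.lean`, or
`Pool/Graph/R_pool_sql_team_39128cda/H/MP_987dc0_co/A.lean`, or
`Pool/Graph/R_pool_sql_team_51e01f96/H/helper25_/DiffPoset.lean` with its `S10310.lean` (copy what is needed to
`Pool/Agent/H89/DP/L/`, do not import `Pool.Graph`). -/
def S_BASE : Prop := 51 ≤ y 3 4 ∧ ∃ a : ℕ → ℕ, D 3 a ∧ a 0 = 1 ∧ a 1 = 3 ∧ a 2 = 9 ∧ a 3 = 22 ∧ a 4 = 50

/-- STUB `DPO-CNV` (80 lines). Splitting tuples (`Finset.Nat.antidiagonalTuple`, e.g. the coefficients of a product of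
power series `(∑ p(n) X^n)^r`, or `Fin.append`). -/
def S_CNV : Prop := ∀ r s n : ℕ, y (r + s) n = ∑ ij ∈ Finset.HasAntidiagonal.antidiagonal n, y r ij.1 * y s ij.2

/-- STUB `DPO-GRW` (120 lines). Adding a part 1 to the `i`-th partition is injective from pairs (tuple of total size
`m`, `i`) to pairs (tuple of total size `m + 1`, `i` such that the `i`-th partition contains 1), and a tuple of
total size `m + 1` has at most `m + 1` nonempty partitions. (Or by induction on `r` from
`y (r + 1) n = ∑ y r i * p (n - i)` with `p (j) ≤ p (j + 1)`: `(m + 1) y (r+1) (m+1) = ∑_(i + j = m + 1) (i + j) y r i p j`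
and `∑ i y r i p j ≥ r ∑ y r (i - 1) p j`, `∑ j y r i p j ≥ ∑ y r i p (j - 1)`.) -/
def S_GRW : Prop := ∀ r m : ℕ, r * y r m ≤ (m + 1) * y r (m + 1)

/-- STUB `DPO-YTH` (80 lines). Small values, by induction on `r` with `S_CNV` and the numbers of partitions of
`0, 1, 2, 3` (1, 1, 2, 3). -/
def S_YTH : Prop := S_CNV → ∀ r : ℕ, y r 0 = 1 ∧ y r 1 = r ∧ 2 * y r 2 = r * (r + 3) ∧
  6 * y r 3 = r * (r + 1) * (r + 8)

/-- STUB `DPO-FA` (150 lines). Ranks 0, 1, 2. The only element of rank 0 is `⊥`; the elements of rank 1 are the ones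
which cover `⊥`; there are `r`, and each is covered by `r + 1` elements (all of rank 2). Elements of rank `n + 1` cover
something (a maximal element of the finite set of the elements `< x`). Double counting: the pairs `x ⋖ z` with
`ρ z = 2`, and the triples `x ⋖ z`, `x' ⋖ z`, `x ≠ x'` (two elements of rank 1 have one common lower
cover, so one common upper cover). -/
def S_FA : Prop := ∀ (r : ℕ) (P : Type) [PartialOrder P] [OrderBot P] [LocallyFiniteOrder P]
  (ρ : P → ℕ) (h : IsDiff r P ρ),
  {x : P | ρ x = 0}.ncard = 1 ∧ {x : P | ρ x = 1}.ncard = r ∧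
  (∀ z : P, 1 ≤ ρ z → 1 ≤ dn z) ∧
  ∑ z ∈ (h.fin 2).toFinset, dn z = r * (r + 1) ∧
  ∑ z ∈ (h.fin 2).toFinset, dn z * (dn z - 1) = r * (r - 1)

/-- STUB `DPO-FB` (150 lines). Ranks 2 and 3. For `ρ z = 2`: the sum of `dn w - 1` over the upper covers `w` of `z` is
the number of pairs `(w, z')`, `z' ≠ z`, `z, z' ⋖ w`; by `pair` this is the number of pairs `(x, z')` with
`x ⋖ z, z'`, `z' ≠ z`, and each `x` (of rank 1, so `dn x = 1`) has `r + 1` upper covers. The last equation:
double counting of the pairs `z ⋖ w`, each `w` with weight `1 / dn w`, `dn w` times. -/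
def S_FB : Prop := S_FA → ∀ (r : ℕ) (P : Type) [PartialOrder P] [OrderBot P] [LocallyFiniteOrder P]
  (ρ : P → ℕ) (h : IsDiff r P ρ),
  (∀ z : P, ρ z = 2 → ∑ w ∈ (h.deg z).1.toFinset, (dn w - 1) = dn z * r) ∧
  ({x : P | ρ x = 3}.ncard : ℚ) =
    ∑ z ∈ (h.fin 2).toFinset, ∑ w ∈ (h.deg z).1.toFinset, 1 / (dn w : ℚ)

end Pool.Agent.H89.DP
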