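import Pool.Agent.H89.DP.Defs

/-!
# Rank sizes of differential posets (MP_987dc0_co), statements for rank 4
-/

set_option autoImplicit false

namespace Pool.Agent.H89.DP

/-- STUB `DPO-G1` (150 lines). `{x | x ⋖ z}` is a subset of `Finset.Icc ⊥ z`. For every `z`: the sum of `dn w - 1`
over the upper covers `w` of `z` is the number of the pairs `(w, z')` with `z' ≠ z`, `z ⋖ w`, `z' ⋖ w`; by `h.pair`
(summed over the finitely many `z'` which have a common upper cover with `z`, these are the ones with a common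
lower cover) it is the number of the pairs `(x, z')`, `z' ≠ z`, `x ⋖ z`, `x ⋖ z'`, which is the sum over the lower
covers `x` of `z` of (number of upper covers of `x`) `- 1 = dn x + r - 1`. -/
def S_G1 : Prop := ∀ (r : ℕ) (P : Type) [PartialOrder P] [OrderBot P] [LocallyFiniteOrder P]
  (ρ : P → ℕ) (h : IsDiff r P ρ),
  (∀ z : P, {x : P | x ⋖ z}.Finite) ∧ ∀ (z : P) (f : {x : P | x ⋖ z}.Finite),
    ∑ w ∈ (h.deg z).1.toFinset, ((dn w : ℤ) - 1) = ∑ x ∈ f.toFinset, ((dn x : ℤ) + r - 1)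

/-- STUB `DPO-G2` (60 lines). Both sides are the sum over the pairs `x ⋖ z` with `ρ x = n`, equivalently
`ρ z = n + 1` (`Finset.sum_sigma'` and a bijection, or `Finset.sum_comm'`). -/
def S_G2 : Prop := ∀ (r : ℕ) (P : Type) [PartialOrder P] [OrderBot P] [LocallyFiniteOrder P]
  (ρ : P → ℕ) (h : IsDiff r P ρ) (n : ℕ) (F : P → P → ℚ) (f : ∀ z : P, {x : P | x ⋖ z}.Finite),
  ∑ z ∈ (h.fin (n + 1)).toFinset, ∑ x ∈ (f z).toFinset, F x z =
    ∑ x ∈ (h.fin n).toFinset, ∑ z ∈ (h.deg x).1.toFinset, F x z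

/-- STUB `DPO-YT4` (60 lines). Induction on `r` with `S_CNV` (`s = 1`) and `y 1 j = 1, 1, 2, 3, 5` for
`j = 0, …, 4`. -/
def S_YT4 : Prop := S_CNV → S_YTH → ∀ r : ℕ, 24 * y r 4 = r * (r ^ 3 + 18 * r ^ 2 + 59 * r + 42)

end Pool.Agent.H89.DP
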