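import Pool.Agent.H89.DP.Defs2

/-!
# Rank sizes of differential posets (MP_987dc0_co), statements for all ranks
-/

set_option autoImplicit false

namespace Pool.Agent.H89.DP

/-- STUB `DPO-INJ` (120 lines). The classical argument of Stanley: for `v : P → ℚ` supported on rank `m` let
`U v (z) = ∑ x ⋖ z, v x` (rank `m + 1`) and `D v (y) = ∑ x ⋗ y, v x` (rank `m - 1`). Then
`∑_z (U v z)² = ∑_(x, x') v x v x' #{z : x ⋖ z, x' ⋖ z} = ∑_y (D v y)² + r ∑_x (v x)²` by `h.pair` and `h.deg`. So `U` is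
injective from the functions on rank `m` to the functions on rank `m + 1`, and `LinearMap.finrank_le_finrank_of_injective`
(or: the vectors `U e_x` are linearly independent). (`FA`, `G1`, `G2` in `Pool/Agent/H89/DP/L/` are proved and may be
used for details.) -/
def S_INJ : Prop := ∀ (r : ℕ) (P : Type) [PartialOrder P] [OrderBot P] [LocallyFiniteOrder P]
  (ρ : P → ℕ), 1 ≤ r → IsDiff r P ρ → ∀ m : ℕ, {x : P | ρ x = m}.ncard ≤ {x : P | ρ x = m + 1}.ncard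

/-- STUB `DPO-MOM` (120 lines, from `S_FA`, `S_G1`, `S_G2`). Put `A n = ∑ 1`, `B n = ∑ dn z`,
`G n = ∑ (dn z + r) (dn z + r - 1)` over the `z` of rank `n`. `B 0 = 0` (nothing is covered by `⊥`); `A 1 = r`, `A 0 = 1` by `S_FA`.
`B (n + 1)`: `S_G2` with `F = 1` (every `x` has `dn x + r` upper covers). `∑_(rank n + 2) (dn z) (dn z - 1) = G n`: by `S_G2` with
`F x z = dn z - 1` and `S_G1` it is `∑_(rank n + 1) ∑_(x ⋖ z) (dn x + r - 1)`, and by `S_G2` again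
`∑_(rank n) (dn x + r) (dn x + r - 1)`. As `(dn z) (dn z - 1) = dn z ^ 2 - dn z`, this gives `G (n + 2) = G n + 2 r B (n + 2) +
r (r - 1) A (n + 2)`, and the last inequality (`dn z = 0` is allowed too) is `∑ (dn z - (n + 1)) (dn z - (n + 2)) ≥ 0` over
the rank `n + 2`. `G 0 = r (r - 1)` and `G 1 = (r + 1) r * r` as `dn = 1` on rank 1. -/
def S_MOM : Prop := S_FA → S_G1 → S_G2 →
  ∀ (r : ℕ) (P : Type) [PartialOrder P] [OrderBot P] [LocallyFiniteOrder P]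
  (ρ : P → ℕ), IsDiff r P ρ → ∃ A B G : ℕ → ℚ,
    (∀ n, A n = ({x : P | ρ x = n}.ncard : ℚ)) ∧ A 0 = 1 ∧ A 1 = r ∧ B 0 = 0 ∧
    G 0 = r * (r - 1) ∧ G 1 = (r + 1) * r * r ∧
    (∀ n, B (n + 1) = B n + r * A n) ∧
    (∀ n, G (n + 2) = G n + 2 * r * B (n + 2) + r * (r - 1) * A (n + 2)) ∧
    (∀ n : ℕ, ((n : ℚ) + 1) * (n + 2) * A (n + 2) ≥ 2 * (n + 1) * B (n + 2) - G n)

/-- STUB `DPO-ASY` (150 lines, pure algebra). Existence of a subsolution of the recursion, with error constants.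
Ansatz (`n ≥ 2`): `L n = r^n/n! + (3/2) r^(n-1)/(n-2)! - c n * r^(n-2)`,
`M n = r^n/(n-1)! + (3n/2 - 2) r^(n-1)/(n-2)! - b n * r^(n-2)`,
`H n = r^(n+2)/n! + g n * r^(n+1) + k n * r^n`, `g n = 2/(n-1)! + (3/2)/(n-2)! - 1/n!`, and for `n = 0, 1` the exact values
`L 0 = 1, L 1 = r, M 0 = 0, M 1 = r, H 0 = r (r-1), H 1 = (r+1) r r` (which are of the same form with `1/(-1)! = 0`,
`c = b = 0`: `L 1 = r`, `M 1 = r`; check the first steps by hand). The two top coefficients match exactly in all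
three conditions; the error constants are chosen recursively (`r ≥ 1`, so `r^j ≤ r^(j+1)`): first all `k n` (the condition
for `H` bounds `k (n+2)` below by a constant which does not depend on `c, b ≥ 0`), then
`b (n+1) ≥ b n + c n` and `c (n+2) ≥ 2 (n+1) b (n+2) + k n`, divided by `(n+1)(n+2)`.
Only the inequality signs matter. (`c n` may be chosen huge.) -/
def S_ASY : Prop := ∃ c : ℕ → ℚ, ∀ r : ℕ, 1 ≤ r → ∃ L M H : ℕ → ℚ,
    L 0 = 1 ∧ L 1 = r ∧ M 0 = 0 ∧ H 0 = r * (r - 1) ∧ H 1 = (r + 1) * r * r ∧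
    (∀ n, M (n + 1) ≤ M n + r * L n) ∧
    (∀ n, H (n + 2) ≥ H n + 2 * r * M (n + 2) + r * (r - 1) * L (n + 2)) ∧
    (∀ n : ℕ, ((n : ℚ) + 1) * (n + 2) * L (n + 2) ≤ 2 * (n + 1) * M (n + 2) - H n) ∧
    (∀ n : ℕ, L (n + 2) = (r : ℚ) ^ (n + 2) / (n + 2).factorial
      + 3 / 2 * (r : ℚ) ^ (n + 1) / n.factorial - c (n + 2) * (r : ℚ) ^ n)

/-- STUB `DPO-YUP` (150 lines, from `S_CNV`). `y (r+1) n - y r n = ∑_(j ≥ 1) p(j) y r (n-j)` (`p = 1, 2, 3, …` for `j = 1, 2, 3`);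
induction on `n`, summing over `r`; `∑_(s<r) s^m ≤ r^(m+1)/(m+1) - r^m/2 + K r^(m-1)` (`m ≥ 1`). Or:
`y r n = ∑_s (r choose s) q(n, s)` where `q (n, s)` is the number of the `s`-tuples of nonempty partitions of total
size `n`, `q (n, n) = 1`, `q (n, n-1) = 2 (n-1)`, `q (n, s) = 0` for `s > n`. -/
def S_YUP : Prop := S_CNV → ∀ n : ℕ, ∃ K : ℚ, ∀ r : ℕ, 1 ≤ r →
  (y r (n + 2) : ℚ) ≤ (r : ℚ) ^ (n + 2) / (n + 2).factorial
      + 3 / 2 * (r : ℚ) ^ (n + 1) / n.factorial + K * (r : ℚ) ^ n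

end Pool.Agent.H89.DP
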