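import Pool.Agent.H89.DP.Defs3

/-! Rank sizes of differential posets (MP_987dc0_co): the lower bounds for the ranks 2, 3, 4. -/

set_option autoImplicit false

namespace Pool.Agent.H89.DP

variable {r : ℕ} {P : Type} [PartialOrder P] [OrderBot P] [LocallyFiniteOrder P] {ρ : P → ℕ}

theorem card_rank (h : IsDiff r P ρ) (n : ℕ) : (h.fin n).toFinset.card = {x : P | ρ x = n}.ncard :=
  (Set.ncard_eq_toFinset_card _ (h.fin n)).symm

theorem card_up (h : IsDiff r P ρ) (x : P) : (h.deg x).1.toFinset.card = dn x + r := by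
  rw [← Set.ncard_eq_toFinset_card _ (h.deg x).1, (h.deg x).2]; rfl

theorem card_down (f : ∀ z : P, {x : P | x ⋖ z}.Finite) (z : P) : (f z).toFinset.card = dn z := by
  rw [← Set.ncard_eq_toFinset_card _ (f z)]; rfl

theorem dn_pos_of_cov (f : ∀ z : P, {x : P | x ⋖ z}.Finite) {x z : P} (hx : x ⋖ z) : 1 ≤ dn z := by
  unfold dn
  exact (Set.ncard_pos (f z)).2 ⟨x, hx⟩

theorem mem_rank (h : IsDiff r P ρ) {n : ℕ} {x : P} : x ∈ (h.fin n).toFinset ↔ ρ x = n := by simp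

theorem mem_up (h : IsDiff r P ρ) {x z : P} : z ∈ (h.deg x).1.toFinset ↔ x ⋖ z := by simp

theorem dn_one (hFA : S_FA) (h : IsDiff r P ρ) {x : P} (hx : ρ x = 1) : dn x = 1 := by
  obtain ⟨h0, h1, hd, -, -⟩ := hFA r P ρ h
  apply le_antisymm _ (hd x (by omega))
  rw [← h0]
  apply Set.ncard_le_ncard _ (h.fin 0)
  intro w hw
  have := h.cov w x hw
  simp only [Set.mem_setOf_eq]
  omega

theorem dn_two_le (hFA : S_FA) (h : IsDiff r P ρ) {x : P} (hx : ρ x = 2) : dn x ≤ r := by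
  obtain ⟨h0, h1, hd, -, -⟩ := hFA r P ρ h
  calc dn x ≤ {x : P | ρ x = 1}.ncard := by
        apply Set.ncard_le_ncard _ (h.fin 1)
        intro w hw
        have := h.cov w x hw
        simp only [Set.mem_setOf_eq]
        omega
    _ = r := h1

/-- counting the elements of rank `n + 1` from below -/
theorem cnt (hFA : S_FA) (hG2 : S_G2) (h : IsDiff r P ρ) (f : ∀ z : P, {x : P | x ⋖ z}.Finite) (n : ℕ)
    (φ : ℕ → ℚ) : ∑ z ∈ (h.fin (n + 1)).toFinset, φ (dn z) =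
    ∑ x ∈ (h.fin n).toFinset, ∑ z ∈ (h.deg x).1.toFinset, φ (dn z) / dn z := by
  rw [← hG2 r P ρ h n (fun _ z => φ (dn z) / dn z) f]
  apply Finset.sum_congr rfl
  intro z hz
  have hd := (hFA r P ρ h).2.2.1 z (by rw [mem_rank h] at hz; omega)
  rw [Finset.sum_const, card_down f z, nsmul_eq_mul]
  have : (dn z : ℚ) ≠ 0 := by exact_mod_cast (by omega : dn z ≠ 0)
  field_simp

/-- the sum of `dn` over the upper covers -/
theorem sum_up (hG1 : S_G1) (h : IsDiff r P ρ) (f : ∀ z : P, {x : P | x ⋖ z}.Finite) (z : P) :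
    ∑ w ∈ (h.deg z).1.toFinset, (dn w : ℚ) =
      (dn z + r) + ∑ x ∈ (f z).toFinset, ((dn x : ℚ) + r - 1) := by
  have h1 := (hG1 r P ρ h).2 z (f z)
  have h2 : ((∑ w ∈ (h.deg z).1.toFinset, ((dn w : ℤ) - 1) : ℤ) : ℚ) =
      ((∑ x ∈ (f z).toFinset, ((dn x : ℤ) + r - 1) : ℤ) : ℚ) := by rw [h1]
  push_cast at h2
  rw [Finset.sum_sub_distrib, Finset.sum_const, card_up h z, nsmul_eq_mul] at h2
  push_cast at h2
  linarith

theorem int_sq (c d : ℕ) : 0 ≤ ((c : ℚ) - d) * (c - d - 1) := by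
  have : (0 : ℤ) ≤ ((c : ℤ) - d) * (c - d - 1) := by
    rcases le_or_gt ((c : ℤ) - d) 0 with h | h
    · nlinarith
    · nlinarith
  exact_mod_cast this

/-- the secant bound for `1 / s` -/
theorem sec1 (c s : ℕ) (hc : 1 ≤ c) (hs : 1 ≤ s) :
    (2 * c + 1 - s : ℚ) / (c * (c + 1)) ≤ 1 / (s : ℚ) := by
  have hc' : (0 : ℚ) < c := by exact_mod_cast hc
  have hs' : (0 : ℚ) < s := by exact_mod_cast hs
  rw [div_le_div_iff₀ (by positivity) hs']
  have := int_sq s c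
  nlinarith

/-- `h_d(c) = 2 / c + (r - 1 - d) / (c (c + 1))` -/
def hh (r : ℚ) (d c : ℚ) : ℚ := 2 / c + (r - 1 - d) / (c * (c + 1))

/-- the secant bound for `h_d` -/
theorem sec2 (r d c : ℕ) (hd : 1 ≤ d) (hc : 1 ≤ c) (hdr : d ≤ r) :
    hh r d (d + 1) + (hh r d d - hh r d (d + 1)) * (d + 1 - c) ≤ hh r d c := by
  have hc' : (1 : ℚ) ≤ c := by exact_mod_cast hc
  have hd' : (1 : ℚ) ≤ d := by exact_mod_cast hd
  have hr' : (d : ℚ) ≤ r := by exact_mod_cast hdr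
  have key : hh r d c - (hh r d (d + 1) + (hh r d d - hh r d (d + 1)) * (d + 1 - c)) =
      ((c : ℚ) - d) * (c - d - 1) * (2 * (c + 1) * (d + 2) + (r - 1 - d) * (2 * c + d + 2)) /
        (c * (c + 1) * d * (d + 1) * (d + 2)) := by
    unfold hh
    field_simp
    ring
  have h2 : 0 ≤ (2 * ((c : ℚ) + 1) * (d + 2) + (r - 1 - d) * (2 * c + d + 2)) := by
    nlinarith [mul_nonneg (sub_nonneg.2 hr') (by positivity : (0 : ℚ) ≤ 2 * c + d + 2)]
  have h3 : 0 ≤ hh r d c - (hh r d (d + 1) + (hh r d d - hh r d (d + 1)) * (d + 1 - c)) := by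
    rw [key]
    apply div_nonneg
    · exact mul_nonneg (int_sq c d) h2
    · positivity
  linarith

end Pool.Agent.H89.DP
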