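import Pool.Agent.H89.DP.Low

/-! Rank sizes of differential posets (MP_987dc0_co): the lower bounds for the ranks 2, 3, 4. -/

set_option autoImplicit false

namespace Pool.Agent.H89.DP

variable {r : ℕ} {P : Type} [PartialOrder P] [OrderBot P] [LocallyFiniteOrder P] {ρ : P → ℕ}

theorem card_sum (hFA : S_FA) (hG2 : S_G2) (h : IsDiff r P ρ) (f : ∀ z : P, {x : P | x ⋖ z}.Finite)
    (n : ℕ) : ({x : P | ρ x = n + 1}.ncard : ℚ) =
      ∑ x ∈ (h.fin n).toFinset, ∑ z ∈ (h.deg x).1.toFinset, 1 / (dn z : ℚ) := by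
  rw [← cnt hFA hG2 h f n (fun _ => 1), Finset.sum_const, card_rank h (n + 1)]
  simp

theorem sum_two (hFA : S_FA) (h : IsDiff r P ρ) :
    ∑ z ∈ (h.fin 2).toFinset, (dn z : ℚ) = r * (r + 1) ∧
    ∑ z ∈ (h.fin 2).toFinset, (dn z : ℚ) * (dn z - 1) = r * (r - 1) := by
  obtain ⟨h0, h1, hd, ha, hb⟩ := hFA r P ρ h
  constructor
  · exact_mod_cast ha
  · have e1 : ∀ z ∈ (h.fin 2).toFinset, (dn z : ℚ) * (dn z - 1) = ((dn z * (dn z - 1) : ℕ) : ℚ) := by
      intro z hz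
      have := hd z (by rw [mem_rank h] at hz; omega)
      push_cast [Nat.cast_sub this]
      ring
    rw [Finset.sum_congr rfl e1, ← Nat.cast_sum, hb]
    rcases Nat.eq_zero_or_pos r with hr | hr
    · subst hr; simp
    · push_cast [Nat.cast_sub hr]
      ring

/-- sums over the upper covers of an element of rank 2 -/
theorem sum_up_two (hFA : S_FA) (hG1 : S_G1) (h : IsDiff r P ρ) (f : ∀ z : P, {x : P | x ⋖ z}.Finite)
    {z : P} (hz : ρ z = 2) :
    ∑ w ∈ (h.deg z).1.toFinset, (dn w : ℚ) = (dn z + r) + dn z * r := by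
  rw [sum_up hG1 h f z]
  congr 1
  have e1 : ∀ x ∈ (f z).toFinset, ((dn x : ℚ) + r - 1) = r := by
    intro x hx
    have hx' : x ⋖ z := by simpa using hx
    have := h.cov x z hx'
    rw [dn_one hFA h (x := x) (by omega)]
    push_cast
    ring
  rw [Finset.sum_congr rfl e1, Finset.sum_const, card_down f z, nsmul_eq_mul]

theorem low2 (hFA : S_FA) (h : IsDiff r P ρ) :
    (r * (r + 3) : ℚ) ≤ 2 * ({x : P | ρ x = 2}.ncard : ℚ) := by
  obtain ⟨ha, hb⟩ := sum_two hFA h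
  have h1 : ∑ z ∈ (h.fin 2).toFinset, (2 * (dn z : ℚ) - dn z * (dn z - 1)) ≤
      ∑ z ∈ (h.fin 2).toFinset, 2 := by
    apply Finset.sum_le_sum
    intro z _
    have := int_sq (dn z) 1
    push_cast at this
    nlinarith
  rw [Finset.sum_sub_distrib, ← Finset.mul_sum, ha, hb, Finset.sum_const, card_rank h 2,
    nsmul_eq_mul] at h1
  nlinarith

theorem st1 (hFA : S_FA) (hG1 : S_G1) (h : IsDiff r P ρ) (f : ∀ z : P, {x : P | x ⋖ z}.Finite)
    {z : P} (hz : 1 ≤ ρ z) : ∑ x ∈ (f z).toFinset, hh r (dn x) (dn z) ≤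
      ∑ w ∈ (h.deg z).1.toFinset, 1 / (dn w : ℚ) := by
  have hc : 1 ≤ dn z := (hFA r P ρ h).2.2.1 z hz
  have hc' : (1 : ℚ) ≤ dn z := by exact_mod_cast hc
  have h1 : ∑ w ∈ (h.deg z).1.toFinset, (2 * (dn z : ℚ) + 1 - dn w) / (dn z * (dn z + 1)) ≤
      ∑ w ∈ (h.deg z).1.toFinset, 1 / (dn w : ℚ) := by
    apply Finset.sum_le_sum
    intro w hw
    exact sec1 (dn z) (dn w) hc (dn_pos_of_cov f ((mem_up h).1 hw))
  refine le_trans (le_of_eq ?_) h1
  rw [← Finset.sum_div, Finset.sum_sub_distrib, Finset.sum_const, card_up h z, nsmul_eq_mul,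
    sum_up hG1 h f z]
  have e1 : ∀ x ∈ (f z).toFinset, hh r (dn x) (dn z) =
      ((2 * (dn z : ℚ) + 2 * r) - (dn x + r - 1)) / (dn z * (dn z + 1)) := by
    intro x _
    unfold hh
    field_simp
    ring
  rw [Finset.sum_congr rfl e1, ← Finset.sum_div, Finset.sum_sub_distrib, Finset.sum_const,
    card_down f z, nsmul_eq_mul]
  congr 1
  push_cast
  ring

theorem low3 (hFA : S_FA) (hG1 : S_G1) (hG2 : S_G2) (h : IsDiff r P ρ) :
    (r * (r + 1) * (r + 8) : ℚ) ≤ 6 * ({x : P | ρ x = 3}.ncard : ℚ) := by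
  have f := (hG1 r P ρ h).1
  obtain ⟨ha, hb⟩ := sum_two hFA h
  rw [card_sum hFA hG2 h f 2]
  have h1 : ∑ z ∈ (h.fin 2).toFinset,
      ((r + 2 : ℚ) / 2 * dn z - (r + 1) / 3 * (dn z * (dn z - 1))) ≤
      ∑ z ∈ (h.fin 2).toFinset, ∑ w ∈ (h.deg z).1.toFinset, 1 / (dn w : ℚ) := by
    apply Finset.sum_le_sum
    intro z hz
    have hz2 : ρ z = 2 := (mem_rank h).1 hz
    refine le_trans ?_ (st1 hFA hG1 h f (z := z) (by omega))
    have hc : 1 ≤ dn z := (hFA r P ρ h).2.2.1 z (by omega)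
    have hc' : (1 : ℚ) ≤ dn z := by exact_mod_cast hc
    have hr' : (0 : ℚ) ≤ r := by positivity
    have e1 : ∀ x ∈ (f z).toFinset, hh r (dn x) (dn z) =
        (2 * (dn z : ℚ) + r) / (dn z * (dn z + 1)) := by
      intro x hx
      have hx' : x ⋖ z := by simpa using hx
      have := h.cov x z hx'
      rw [dn_one hFA h (x := x) (by omega)]
      unfold hh
      push_cast
      field_simp
      ring
    rw [Finset.sum_congr rfl e1, Finset.sum_const, card_down f z, nsmul_eq_mul]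
    have key : (dn z : ℚ) * ((2 * (dn z : ℚ) + r) / (dn z * (dn z + 1))) -
        ((r + 2 : ℚ) / 2 * dn z - (r + 1) / 3 * (dn z * (dn z - 1))) =
        ((dn z : ℚ) - 1) * (dn z - 1 - 1) * (2 * (r + 1) * dn z + 3 * r) / (6 * (dn z + 1)) := by
      field_simp
      ring
    have h3 : 0 ≤ ((dn z : ℚ) - 1) * (dn z - 1 - 1) * (2 * (r + 1) * dn z + 3 * r) /
        (6 * (dn z + 1)) := by
      apply div_nonneg _ (by positivity)
      apply mul_nonneg _ (by positivity)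
      have := int_sq (dn z) 1
      push_cast at this
      exact this
    linarith
  rw [Finset.sum_sub_distrib, ← Finset.mul_sum, ← Finset.mul_sum, ha, hb] at h1
  nlinarith

theorem num4 (r d : ℕ) (hd : 1 ≤ d) :
    ((r + 1 : ℚ) * (r + 6) / 6) * d - ((3 * r + 2 : ℚ) * (r + 5) / 24) * (d * (d - 1)) ≤
      (r + d) * hh r d (d + 1) + (hh r d d - hh r d (d + 1)) * (d * d) := by
  have hd' : (1 : ℚ) ≤ d := by exact_mod_cast hd
  have key : (r + d) * hh r d (d + 1) + (hh r d d - hh r d (d + 1)) * (d * d) -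
      (((r + 1 : ℚ) * (r + 6) / 6) * d - ((3 * r + 2 : ℚ) * (r + 5) / 24) * (d * (d - 1))) =
      ((d : ℚ) - 1) * (d - 1 - 1) * (12 * r ^ 2 + 11 * r ^ 2 * d + 3 * r ^ 2 * d ^ 2 + 36 * r
        + 57 * r * d + 17 * r * d ^ 2 + 26 * d + 10 * d ^ 2) / (24 * (d + 1) * (d + 2)) := by
    unfold hh
    field_simp
    ring
  have h3 : 0 ≤ ((d : ℚ) - 1) * (d - 1 - 1) * (12 * r ^ 2 + 11 * r ^ 2 * d + 3 * r ^ 2 * d ^ 2 + 36 * r
        + 57 * r * d + 17 * r * d ^ 2 + 26 * d + 10 * d ^ 2) / (24 * (d + 1) * (d + 2)) := by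
    apply div_nonneg _ (by positivity)
    apply mul_nonneg _ (by positivity)
    have := int_sq d 1
    push_cast at this
    exact this
  linarith

theorem low4 (hFA : S_FA) (hG1 : S_G1) (hG2 : S_G2) (h : IsDiff r P ρ) :
    (r * (r ^ 3 + 18 * r ^ 2 + 59 * r + 34) : ℚ) ≤ 24 * ({x : P | ρ x = 4}.ncard : ℚ) := by
  have f := (hG1 r P ρ h).1
  obtain ⟨ha, hb⟩ := sum_two hFA h
  rw [card_sum hFA hG2 h f 3]
  have h1 : ∑ z ∈ (h.fin 3).toFinset, ∑ x ∈ (f z).toFinset, hh r (dn x) (dn z) ≤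
      ∑ z ∈ (h.fin 3).toFinset, ∑ w ∈ (h.deg z).1.toFinset, 1 / (dn w : ℚ) := by
    apply Finset.sum_le_sum
    intro z hz
    have hz2 : ρ z = 3 := (mem_rank h).1 hz
    exact st1 hFA hG1 h f (z := z) (by omega)
  rw [hG2 r P ρ h 2 (fun x z => hh r (dn x) (dn z)) f] at h1
  have h2 : ∑ x ∈ (h.fin 2).toFinset, (((r + 1 : ℚ) * (r + 6) / 6) * dn x -
      ((3 * r + 2 : ℚ) * (r + 5) / 24) * (dn x * (dn x - 1))) ≤
      ∑ x ∈ (h.fin 2).toFinset, ∑ z ∈ (h.deg x).1.toFinset, hh r (dn x) (dn z) := by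
    apply Finset.sum_le_sum
    intro x hx
    have hx2 : ρ x = 2 := (mem_rank h).1 hx
    have hd : 1 ≤ dn x := (hFA r P ρ h).2.2.1 x (by omega)
    refine le_trans (num4 r (dn x) hd) ?_
    have h3 : ∑ z ∈ (h.deg x).1.toFinset, (hh r (dn x) (dn x + 1) +
        (hh r (dn x) (dn x) - hh r (dn x) (dn x + 1)) * (dn x + 1 - dn z)) ≤
        ∑ z ∈ (h.deg x).1.toFinset, hh r (dn x) (dn z) := by
      apply Finset.sum_le_sum
      intro z hz
      exact sec2 r (dn x) (dn z) hd (dn_pos_of_cov f ((mem_up h).1 hz)) (dn_two_le hFA h hx2)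
    refine le_trans (le_of_eq ?_) h3
    rw [Finset.sum_add_distrib, ← Finset.mul_sum, Finset.sum_sub_distrib, Finset.sum_const,
      Finset.sum_const, card_up h x, sum_up_two hFA hG1 h f hx2, nsmul_eq_mul, nsmul_eq_mul]
    push_cast
    ring
  rw [Finset.sum_sub_distrib, ← Finset.mul_sum, ← Finset.mul_sum, ha, hb] at h2
  have h4 := le_trans h2 h1
  nlinarith

/-- the lower bounds: at least as many elements as `Y^r` in the ranks `0, …, 3`, at most `⌊r / 3⌋` fewer in rank 4 -/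
theorem lower (hFA : S_FA) (hG1 : S_G1) (hG2 : S_G2) (hC : S_CNV) (hY : S_YTH) (hY4 : S_YT4)
    (h : IsDiff r P ρ) :
    (∀ n ≤ 3, y r n ≤ {x : P | ρ x = n}.ncard) ∧ y r 4 ≤ {x : P | ρ x = 4}.ncard + r / 3 := by
  obtain ⟨y0, y1, y2, y3⟩ := hY hC r
  have y4 := hY4 hC hY r
  obtain ⟨h0, h1, -, -, -⟩ := hFA r P ρ h
  have l2 := low2 hFA h
  have l3 := low3 hFA hG1 hG2 h
  have l4 := low4 hFA hG1 hG2 h
  constructor
  · intro n hn
    interval_cases n
    · rw [y0, h0]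
    · rw [y1, h1]
    · have : 2 * y r 2 ≤ 2 * {x : P | ρ x = 2}.ncard := by
        rw [y2]; exact_mod_cast l2
      omega
    · have : 6 * y r 3 ≤ 6 * {x : P | ρ x = 3}.ncard := by
        rw [y3]; exact_mod_cast l3
      omega
  · have : 24 * y r 4 ≤ 24 * {x : P | ρ x = 4}.ncard + 8 * r := by
      rw [y4]
      have h5 : (r * (r ^ 3 + 18 * r ^ 2 + 59 * r + 34) : ℕ) ≤ 24 * {x : P | ρ x = 4}.ncard := by
        exact_mod_cast l4
      nlinarith
    omega

end Pool.Agent.H89.DP
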