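import Pool.Agent.H89.DP.Low2

/-! Rank sizes of differential posets (MP_987dc0_co): the lower bound for the rank 5. -/

set_option autoImplicit false

namespace Pool.Agent.H89.DP

variable {r : ℕ} {P : Type} [PartialOrder P] [OrderBot P] [LocallyFiniteOrder P] {ρ : P → ℕ}

/-- the second transform of `1 / s` -/
def kk (r e d : ℚ) : ℚ := ((r + d) * (r + d + 3) + 2 * (r + 1) * (d + 1 - e)) / (d * (d + 1) * (d + 2))

/-- the same, cut off for `d > r` -/
noncomputable def kf (r : ℕ) (e : ℚ) (d : ℕ) : ℚ :=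
  if d ≤ r then kk r e d else -((r + d) * (d + 1 - r)) / (2 * d)

theorem sum_up_gen (hG1 : S_G1) (h : IsDiff r P ρ) (f : ∀ z : P, {x : P | x ⋖ z}.Finite) (z : P) :
    ∑ w ∈ (h.deg z).1.toFinset, (dn w : ℚ) =
      (dn z + 1) * r + ∑ x ∈ (f z).toFinset, (dn x : ℚ) := by
  rw [sum_up hG1 h f z]
  have : ∑ x ∈ (f z).toFinset, ((dn x : ℚ) + r - 1) =
      ∑ x ∈ (f z).toFinset, (dn x : ℚ) + dn z * (r - 1) := by
    have e1 : ∀ x ∈ (f z).toFinset, ((dn x : ℚ) + r - 1) = dn x + (r - 1) := fun x _ => by ring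
    rw [Finset.sum_congr rfl e1, Finset.sum_add_distrib, Finset.sum_const, card_down f z,
      nsmul_eq_mul]
  rw [this]
  ring

theorem hh_ge (r d c : ℕ) (hc : 1 ≤ c) (hd : r < d) : -(((d : ℚ) + 1 - r) / 2) ≤ hh r d c := by
  have hc' : (1 : ℚ) ≤ c := by exact_mod_cast hc
  have hd' : (r : ℚ) + 1 ≤ d := by exact_mod_cast hd
  unfold hh
  have h1 : (0 : ℚ) ≤ 2 / (c : ℚ) := by positivity
  have h2 : -(((d : ℚ) + 1 - r) / 2) ≤ ((r : ℚ) - 1 - d) / (c * (c + 1)) := by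
    rw [neg_le, ← neg_div, div_le_div_iff₀ (by positivity) (by norm_num)]
    have h3 : (2 : ℚ) ≤ c * (c + 1) := by nlinarith
    nlinarith
  linarith

theorem st2 (hFA : S_FA) (hG1 : S_G1) (h : IsDiff r P ρ) (f : ∀ z : P, {x : P | x ⋖ z}.Finite)
    {z : P} (hz : 1 ≤ ρ z) : ∑ x ∈ (f z).toFinset, kf r (dn x) (dn z) ≤
      ∑ w ∈ (h.deg z).1.toFinset, hh r (dn z) (dn w) := by
  have hc : 1 ≤ dn z := (hFA r P ρ h).2.2.1 z hz
  have hc' : (1 : ℚ) ≤ dn z := by exact_mod_cast hc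
  by_cases hd : dn z ≤ r
  · have h3 : ∑ w ∈ (h.deg z).1.toFinset, (hh r (dn z) (dn z + 1) +
        (hh r (dn z) (dn z) - hh r (dn z) (dn z + 1)) * (dn z + 1 - dn w)) ≤
        ∑ w ∈ (h.deg z).1.toFinset, hh r (dn z) (dn w) := by
      apply Finset.sum_le_sum
      intro w hw
      exact sec2 r (dn z) (dn w) hc (dn_pos_of_cov f ((mem_up h).1 hw)) hd
    refine le_trans (le_of_eq ?_) h3
    rw [Finset.sum_add_distrib, ← Finset.mul_sum, Finset.sum_sub_distrib, Finset.sum_const,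
      Finset.sum_const, card_up h z, sum_up_gen hG1 h f z, nsmul_eq_mul, nsmul_eq_mul]
    have e1 : ∀ x ∈ (f z).toFinset, kf r (dn x) (dn z) =
        ((r + dn z) * (r + dn z + 3) + 2 * (r + 1) * (dn z + 1)) / (dn z * (dn z + 1) * (dn z + 2))
          - 2 * (r + 1) / (dn z * (dn z + 1) * (dn z + 2)) * dn x := by
      intro x _
      unfold kf kk
      rw [if_pos hd]
      field_simp
      ring
    rw [Finset.sum_congr rfl e1, Finset.sum_sub_distrib, ← Finset.mul_sum, Finset.sum_const,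
      card_down f z, nsmul_eq_mul]
    unfold hh
    push_cast
    field_simp
    ring
  · have hd1 : r < dn z := by omega
    have h3 : ∑ w ∈ (h.deg z).1.toFinset, (-(((dn z : ℚ) + 1 - r) / 2)) ≤
        ∑ w ∈ (h.deg z).1.toFinset, hh r (dn z) (dn w) := by
      apply Finset.sum_le_sum
      intro w hw
      exact hh_ge r (dn z) (dn w) (dn_pos_of_cov f ((mem_up h).1 hw)) hd1
    refine le_trans (le_of_eq ?_) h3
    have e1 : ∀ x ∈ (f z).toFinset, kf r (dn x) (dn z) =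
        -((r + dn z) * (dn z + 1 - r)) / (2 * dn z) := by
      intro x _
      unfold kf
      rw [if_neg hd]
    rw [Finset.sum_congr rfl e1, Finset.sum_const, Finset.sum_const, card_down f z, card_up h z,
      nsmul_eq_mul, nsmul_eq_mul]
    push_cast
    field_simp
    ring

theorem kf_big (r d : ℕ) (hr : 1 ≤ r) (hd : r < d) :
    -(d : ℚ) ≤ -((r + d) * (d + 1 - r)) / (2 * d) := by
  have hd' : (r : ℚ) + 1 ≤ d := by exact_mod_cast hd
  have hr' : (1 : ℚ) ≤ r := by exact_mod_cast hr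
  rw [le_div_iff₀ (by linarith)]
  nlinarith

theorem kf_one (r d : ℕ) (hr : 20 ≤ r) (hd : 1 ≤ d) :
    (r ^ 2 + 11 * r + 14 : ℚ) / 24 + (3 * r ^ 2 + 17 * r + 10) / 24 * (2 - d) ≤ kf r 1 d := by
  have hr' : (20 : ℚ) ≤ r := by exact_mod_cast hr
  have hd' : (1 : ℚ) ≤ d := by exact_mod_cast hd
  unfold kf
  split_ifs with h
  · have key : kk r 1 d - ((r ^ 2 + 11 * r + 14 : ℚ) / 24 + (3 * r ^ 2 + 17 * r + 10) / 24 * (2 - d)) =
        ((d : ℚ) - 1) * (d - 1 - 1) * (130 * d + 50 * d ^ 2 + 180 * r + 285 * r * d + 85 * r * d ^ 2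
          + 60 * r ^ 2 + 55 * r ^ 2 * d + 15 * r ^ 2 * d ^ 2) / (120 * d * (d + 1) * (d + 2)) := by
      unfold kk
      field_simp
      ring
    have h3 : 0 ≤ ((d : ℚ) - 1) * (d - 1 - 1) * (130 * d + 50 * d ^ 2 + 180 * r + 285 * r * d
        + 85 * r * d ^ 2 + 60 * r ^ 2 + 55 * r ^ 2 * d + 15 * r ^ 2 * d ^ 2) /
        (120 * d * (d + 1) * (d + 2)) := by
      apply div_nonneg _ (by positivity)
      apply mul_nonneg _ (by positivity)
      have := int_sq d 1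
      push_cast at this
      exact this
    linarith
  · refine le_trans ?_ (kf_big r d (by omega) (by omega))
    have hd2 : (r : ℚ) + 1 ≤ d := by exact_mod_cast (by omega : r + 1 ≤ d)
    nlinarith [mul_nonneg (sub_nonneg.2 hd2) (by positivity : (0 : ℚ) ≤ 3 * (r : ℚ) ^ 2 + 17 * r)]

theorem kf_two (r d : ℕ) (hr : 20 ≤ r) (hd : 1 ≤ d) :
    (r ^ 2 + 13 * r + 22 : ℚ) / 60 + (3 * r ^ 2 + 19 * r + 16) / 120 * (3 - d) ≤ kf r 2 d := by
  have hr' : (20 : ℚ) ≤ r := by exact_mod_cast hr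
  have hd' : (1 : ℚ) ≤ d := by exact_mod_cast hd
  unfold kf
  split_ifs with h
  · have key : kk r 2 d - ((r ^ 2 + 13 * r + 22 : ℚ) / 60 + (3 * r ^ 2 + 19 * r + 16) / 120 * (3 - d)) =
        ((d : ℚ) - 2) * (d - 2 - 1) * ((36 * d - 36) + (16 * d ^ 2 - 16) + (20 * r - 20) + 32
          + 69 * r * d + 19 * r * d ^ 2
          + 20 * r ^ 2 + 13 * r ^ 2 * d + 3 * r ^ 2 * d ^ 2) / (120 * d * (d + 1) * (d + 2)) := by
      unfold kk
      field_simp
      ring
    have h3 : 0 ≤ ((d : ℚ) - 2) * (d - 2 - 1) * ((36 * d - 36) + (16 * d ^ 2 - 16) + (20 * r - 20) + 32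
          + 69 * r * d + 19 * r * d ^ 2
          + 20 * r ^ 2 + 13 * r ^ 2 * d + 3 * r ^ 2 * d ^ 2) / (120 * d * (d + 1) * (d + 2)) := by
      apply div_nonneg _ (by positivity)
      apply mul_nonneg
      · have := int_sq d 2
        push_cast at this
        exact this
      · have a1 : (0 : ℚ) ≤ 36 * d - 36 := by linarith
        have a2 : (0 : ℚ) ≤ 16 * (d : ℚ) ^ 2 - 16 := by nlinarith
        have a3 : (0 : ℚ) ≤ 20 * r - 20 := by linarith
        positivity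
    linarith
  · refine le_trans ?_ (kf_big r d (by omega) (by omega))
    have hd2 : (r : ℚ) + 1 ≤ d := by exact_mod_cast (by omega : r + 1 ≤ d)
    nlinarith [mul_nonneg (sub_nonneg.2 hd2) (by positivity : (0 : ℚ) ≤ 3 * (r : ℚ) ^ 2 + 19 * r)]

theorem kf_all (r e d : ℕ) (hr : 20 ≤ r) (hd : 1 ≤ d) :
    -((r + 1 : ℚ) * e / 3) - d ≤ kf r e d := by
  have hr' : (20 : ℚ) ≤ r := by exact_mod_cast hr
  have hd' : (1 : ℚ) ≤ d := by exact_mod_cast hd
  have he : (0 : ℚ) ≤ e := by positivity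
  unfold kf
  split_ifs with h
  · unfold kk
    have h1 : -((r + 1 : ℚ) * e / 3) ≤
        ((r + d) * (r + d + 3) + 2 * (r + 1) * (d + 1 - e)) / (d * (d + 1) * (d + 2)) := by
      rw [le_div_iff₀ (by positivity)]
      have h2 : (6 : ℚ) ≤ d * (d + 1) * (d + 2) := by nlinarith [mul_nonneg (sub_nonneg.2 hd') (sub_nonneg.2 hd')]
      have h3 : (r + 1 : ℚ) * e / 3 * 6 ≤ (r + 1 : ℚ) * e / 3 * (d * (d + 1) * (d + 2)) :=
        mul_le_mul_of_nonneg_left h2 (by positivity)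
      have h4 : (0 : ℚ) ≤ (r + d) * (r + d + 3) + 2 * (r + 1) * (d + 1) := by positivity
      nlinarith
    linarith
  · have := kf_big r d (by omega) (by omega)
    have h2 : (0 : ℚ) ≤ (r + 1 : ℚ) * e / 3 := by positivity
    linarith

end Pool.Agent.H89.DP
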