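import Pool.Agent.H89.DP.N5

/-! Rank sizes of differential posets (MP_987dc0_co): the lower bound for the rank 5. -/

set_option autoImplicit false

namespace Pool.Agent.H89.DP

variable {r : ℕ} {P : Type} [PartialOrder P] [OrderBot P] [LocallyFiniteOrder P] {ρ : P → ℕ}

theorem num5 (r e : ℚ) (hr : 20 ≤ r) (he : 3 ≤ e) (her : e ≤ r) :
    (5 * r ^ 3 + 75 * r ^ 2 + 210 * r + 120) / 120 * e -
      (4 * r ^ 3 + 54 * r ^ 2 + 124 * r + 44) / 120 * (e * (e - 1)) ≤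
    (e + r) * (-((r + 1) * e / 3)) - (e + r + e * r) := by
  have hb : 0 ≤ 4 * r ^ 3 + 54 * r ^ 2 + 124 * r + 44 := by positivity
  have h1 : 2 * (4 * r ^ 3 + 54 * r ^ 2 + 124 * r + 44) ≤
      (e - 1) * (4 * r ^ 3 + 54 * r ^ 2 + 124 * r + 44) :=
    mul_le_mul_of_nonneg_right (by linarith) hb
  have h2 : 40 * (r + e) * (r + 1) ≤ 80 * r * (r + 1) := by nlinarith
  have h3 : 0 ≤ 3 * r ^ 3 - 47 * r ^ 2 - 202 * r - 152 := by
    have a1 : 0 ≤ (r - 20) * (3 * r ^ 2 + 13 * r + 58) := mul_nonneg (by linarith) (by positivity)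
    nlinarith
  have h4 : 120 * r ≤ 40 * e * r := by nlinarith
  have h5 : 0 ≤ (e - 1) * (4 * r ^ 3 + 54 * r ^ 2 + 124 * r + 44) -
      (5 * r ^ 3 + 75 * r ^ 2 + 210 * r + 120) - 40 * (r + e) * (r + 1) - 120 * (1 + r) - 40 * r := by
    linarith
  have h6 : 0 ≤ e * ((e - 1) * (4 * r ^ 3 + 54 * r ^ 2 + 124 * r + 44) -
      (5 * r ^ 3 + 75 * r ^ 2 + 210 * r + 120) - 40 * (r + e) * (r + 1) - 120 * (1 + r) - 40 * r) :=
    mul_nonneg (by linarith) h5
  nlinarith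

theorem at_two (hFA : S_FA) (hG1 : S_G1) (h : IsDiff r P ρ) (hr : 20 ≤ r)
    (f : ∀ z : P, {x : P | x ⋖ z}.Finite) {x : P} (hx : ρ x = 2) :
    (5 * r ^ 3 + 75 * r ^ 2 + 210 * r + 120 : ℚ) / 120 * dn x -
      (4 * r ^ 3 + 54 * r ^ 2 + 124 * r + 44 : ℚ) / 120 * (dn x * (dn x - 1)) ≤
      ∑ y ∈ (h.deg x).1.toFinset, kf r (dn x) (dn y) := by
  have hr' : (20 : ℚ) ≤ r := by exact_mod_cast hr
  have he : 1 ≤ dn x := (hFA r P ρ h).2.2.1 x (by omega)
  have her : dn x ≤ r := dn_two_le hFA h hx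
  have hsum := sum_up_two hFA hG1 h f hx
  have hcard := card_up h x
  have hpos : ∀ y ∈ (h.deg x).1.toFinset, 1 ≤ dn y := fun y hy => dn_pos_of_cov f ((mem_up h).1 hy)
  rcases Nat.lt_or_ge (dn x) 3 with h3 | h3
  · rcases Nat.lt_or_ge (dn x) 2 with h2 | h2
    · have e1 : dn x = 1 := by omega
      rw [e1] at hsum hcard ⊢
      have h4 : ∑ y ∈ (h.deg x).1.toFinset, ((r ^ 2 + 11 * r + 14 : ℚ) / 24 +
          (3 * r ^ 2 + 17 * r + 10) / 24 * (2 - dn y)) ≤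
          ∑ y ∈ (h.deg x).1.toFinset, kf r ((1 : ℕ) : ℚ) (dn y) := by
        apply Finset.sum_le_sum
        intro y hy
        rw [Nat.cast_one]
        exact kf_one r (dn y) hr (hpos y hy)
      refine le_trans (le_of_eq ?_) h4
      rw [Finset.sum_add_distrib, ← Finset.mul_sum, Finset.sum_sub_distrib, Finset.sum_const,
        Finset.sum_const, hcard, hsum, nsmul_eq_mul, nsmul_eq_mul]
      push_cast
      ring
    · have e1 : dn x = 2 := by omega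
      rw [e1] at hsum hcard ⊢
      have h4 : ∑ y ∈ (h.deg x).1.toFinset, ((r ^ 2 + 13 * r + 22 : ℚ) / 60 +
          (3 * r ^ 2 + 19 * r + 16) / 120 * (3 - dn y)) ≤
          ∑ y ∈ (h.deg x).1.toFinset, kf r ((2 : ℕ) : ℚ) (dn y) := by
        apply Finset.sum_le_sum
        intro y hy
        rw [Nat.cast_ofNat]
        exact kf_two r (dn y) hr (hpos y hy)
      refine le_trans (le_of_eq ?_) h4
      rw [Finset.sum_add_distrib, ← Finset.mul_sum, Finset.sum_sub_distrib, Finset.sum_const,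
        Finset.sum_const, hcard, hsum, nsmul_eq_mul, nsmul_eq_mul]
      push_cast
      ring
  · have h4 : ∑ y ∈ (h.deg x).1.toFinset, (-((r + 1 : ℚ) * dn x / 3) - dn y) ≤
        ∑ y ∈ (h.deg x).1.toFinset, kf r (dn x) (dn y) := by
      apply Finset.sum_le_sum
      intro y hy
      exact kf_all r (dn x) (dn y) hr (hpos y hy)
    refine le_trans ?_ h4
    rw [Finset.sum_sub_distrib, Finset.sum_const, hcard, hsum, nsmul_eq_mul]
    have := num5 r (dn x) hr' (by exact_mod_cast h3) (by exact_mod_cast her)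
    push_cast at this ⊢
    linarith

theorem low5 (hFA : S_FA) (hG1 : S_G1) (hG2 : S_G2) (h : IsDiff r P ρ) (hr : 20 ≤ r) :
    (r * (r ^ 4 + 30 * r ^ 3 + 215 * r ^ 2 + 410 * r + 164) : ℚ) ≤
      120 * ({x : P | ρ x = 5}.ncard : ℚ) := by
  have f := (hG1 r P ρ h).1
  obtain ⟨ha, hb⟩ := sum_two hFA h
  rw [card_sum hFA hG2 h f 4]
  have h1 : ∑ z ∈ (h.fin 4).toFinset, ∑ x ∈ (f z).toFinset, hh r (dn x) (dn z) ≤
      ∑ z ∈ (h.fin 4).toFinset, ∑ w ∈ (h.deg z).1.toFinset, 1 / (dn w : ℚ) := by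
    apply Finset.sum_le_sum
    intro z hz
    have hz2 : ρ z = 4 := (mem_rank h).1 hz
    exact st1 hFA hG1 h f (z := z) (by omega)
  rw [hG2 r P ρ h 3 (fun x z => hh r (dn x) (dn z)) f] at h1
  have h2 : ∑ z ∈ (h.fin 3).toFinset, ∑ x ∈ (f z).toFinset, kf r (dn x) (dn z) ≤
      ∑ z ∈ (h.fin 3).toFinset, ∑ w ∈ (h.deg z).1.toFinset, hh r (dn z) (dn w) := by
    apply Finset.sum_le_sum
    intro z hz
    have hz2 : ρ z = 3 := (mem_rank h).1 hz
    exact st2 hFA hG1 h f (z := z) (by omega)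
  rw [hG2 r P ρ h 2 (fun x z => kf r (dn x) (dn z)) f] at h2
  have h3 : ∑ x ∈ (h.fin 2).toFinset, ((5 * r ^ 3 + 75 * r ^ 2 + 210 * r + 120 : ℚ) / 120 * dn x -
      (4 * r ^ 3 + 54 * r ^ 2 + 124 * r + 44 : ℚ) / 120 * (dn x * (dn x - 1))) ≤
      ∑ x ∈ (h.fin 2).toFinset, ∑ y ∈ (h.deg x).1.toFinset, kf r (dn x) (dn y) := by
    apply Finset.sum_le_sum
    intro x hx
    have hx2 : ρ x = 2 := (mem_rank h).1 hx
    exact at_two hFA hG1 h hr f hx2
  rw [Finset.sum_sub_distrib, ← Finset.mul_sum, ← Finset.mul_sum, ha, hb] at h3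
  have h4 := le_trans h3 (le_trans h2 h1)
  nlinarith

/-- the rank sizes of `Y^r` in rank 5 -/
theorem y5 (hC : S_CNV) (hY : S_YTH) (hY4 : S_YT4) (h15 : y 1 5 = 7) (h11 : y 1 1 = 1)
    (h12 : y 1 2 = 2) (h13 : y 1 3 = 3) (h14 : y 1 4 = 5) (h10 : y 1 0 = 1) (h05 : y 0 5 = 0) :
    ∀ r : ℕ, 120 * y r 5 = r * (r ^ 4 + 30 * r ^ 3 + 215 * r ^ 2 + 450 * r + 144) := by
  intro r
  induction r with
  | zero => rw [h05]; norm_num
  | succ r ih =>
    obtain ⟨y0, y1, y2, y3⟩ := hY hC r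
    have y4 := hY4 hC hY r
    have hc := hC r 1 5
    rw [Finset.Nat.sum_antidiagonal_eq_sum_range_succ (fun i j => y r i * y 1 j)] at hc
    simp only [Finset.sum_range_succ, Finset.sum_range_zero] at hc
    norm_num [h10, h11, h12, h13, h14, h15, y0, y1] at hc
    rw [hc]
    nlinarith

end Pool.Agent.H89.DP
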