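import Pool.Agent.H89.DP.Low2

/-! Rank sizes of differential posets (MP_987dc0_co): the constructions. -/

set_option autoImplicit false

namespace Pool.Agent.H89.DP

open PowerSeries

/-- generating function of a rank size sequence -/
noncomputable def gf (a : ℕ → ℕ) : PowerSeries ℕ := PowerSeries.mk a

theorem coeff_gf (a : ℕ → ℕ) (n : ℕ) : PowerSeries.coeff n (gf a) = a n := by
  simp [gf]

/-- `D` for a power series -/
def DS (r : ℕ) (A : PowerSeries ℕ) : Prop := D r (fun n => PowerSeries.coeff n A)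

theorem DS_mul (hP : S_PROD) {r s : ℕ} {A B : PowerSeries ℕ} (h1 : DS r A) (h2 : DS s B) :
    DS (r + s) (A * B) := by
  unfold DS at *
  have := hP r s _ _ h1 h2
  convert this using 2 with n
  rw [PowerSeries.coeff_mul]

theorem D_congr {r : ℕ} {a b : ℕ → ℕ} (h : D r a) (hab : ∀ n, a n = b n) : D r b := by
  have : a = b := funext hab
  rwa [← this]

theorem y_zero (n : ℕ) : y 0 n = if n = 0 then 1 else 0 := by
  unfold y
  cases n with
  | zero => simp [Finset.Nat.antidiagonalTuple_zero_zero]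
  | succ n => simp [Finset.Nat.antidiagonalTuple_zero_succ]

theorem y_one (n : ℕ) : y 1 n = Fintype.card (Nat.Partition n) := by
  unfold y
  rw [Finset.Nat.antidiagonalTuple_one]
  simp

theorem gf_y_zero : gf (y 0) = 1 := by
  ext n
  rw [coeff_gf, y_zero, PowerSeries.coeff_one]

theorem gf_y_add (hC : S_CNV) (r s : ℕ) : gf (y (r + s)) = gf (y r) * gf (y s) := by
  ext n
  rw [coeff_gf, hC r s n, PowerSeries.coeff_mul]
  simp only [coeff_gf]

theorem DS_zero : DS 0 (1 : PowerSeries ℕ) := by
  letI I : LocallyFiniteOrder PUnit.{1} := LocallyFiniteOrder.ofFiniteIcc (fun a b => Set.toFinite _)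
  refine ⟨PUnit, inferInstance, inferInstance, I, fun _ => 0, ?_, ?_⟩
  · have hno : ∀ x z : PUnit.{1}, ¬ x ⋖ z := fun x z h => absurd h.lt (by simp)
    refine ⟨rfl, fun x y h => absurd h (hno x y), fun n => Set.toFinite _, fun x => ⟨Set.toFinite _, ?_⟩,
      fun x y h => absurd (Subsingleton.elim x y) h⟩
    simp [hno]
  · intro n
    simp only [PowerSeries.coeff_one]
    split_ifs with hn
    · subst hn
      simp
    · have : {x : PUnit.{1} | (fun _ => (0 : ℕ)) x = n} = ∅ := by
        ext x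
        simp
        omega
      rw [this]
      simp

theorem DS_y (hP : S_PROD) (hYg : S_YNG) (hC : S_CNV) (r : ℕ) : DS r (gf (y r)) := by
  induction r with
  | zero => rw [gf_y_zero]; exact DS_zero
  | succ r ih =>
    rw [gf_y_add hC]
    apply DS_mul hP ih
    apply D_congr hYg
    intro n
    rw [coeff_gf, y_one]

theorem DS_pow (hP : S_PROD) {r : ℕ} {A : PowerSeries ℕ} (h : DS r A) (k : ℕ) :
    DS (r * k) (A ^ k) := by
  induction k with
  | zero => simpa using DS_zero
  | succ k ih =>
    rw [pow_succ, Nat.mul_succ]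
    exact DS_mul hP ih h

/-- the growth property -/
def Rp (r : ℕ) (A : PowerSeries ℕ) : Prop :=
  ∀ m : ℕ, r * PowerSeries.coeff m A ≤ (m + 1) * PowerSeries.coeff (m + 1) A

theorem Rp_iff (r : ℕ) (A : PowerSeries ℕ) :
    Rp r A ↔ ∀ m, PowerSeries.coeff m ((r : PowerSeries ℕ) * A) ≤
      PowerSeries.coeff m (PowerSeries.derivative ℕ A) := by
  unfold Rp
  refine forall_congr' fun m => ?_
  rw [PowerSeries.coeff_derivative, mul_comm (m + 1) _]
  have : PowerSeries.coeff m ((r : PowerSeries ℕ) * A) = r * PowerSeries.coeff m A := by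
    rw [← map_natCast (PowerSeries.C (R := ℕ)) r, PowerSeries.coeff_C_mul]
    simp
  rw [this]
  push_cast
  simp

theorem coeff_mul_le {A A' B : PowerSeries ℕ} (h : ∀ m, PowerSeries.coeff m A ≤ PowerSeries.coeff m A')
    (m : ℕ) : PowerSeries.coeff m (A * B) ≤ PowerSeries.coeff m (A' * B) := by
  rw [PowerSeries.coeff_mul, PowerSeries.coeff_mul]
  exact Finset.sum_le_sum fun ij _ => Nat.mul_le_mul_right _ (h _)

theorem Rp_mul {r s : ℕ} {A B : PowerSeries ℕ} (h1 : Rp r A) (h2 : Rp s B) : Rp (r + s) (A * B) := by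
  rw [Rp_iff] at *
  intro m
  have e1 : (((r + s : ℕ) : PowerSeries ℕ)) * (A * B) = ((r : PowerSeries ℕ) * A) * B + ((s : PowerSeries ℕ) * B) * A := by
    push_cast; ring
  have e2 : PowerSeries.derivative ℕ (A * B) =
      PowerSeries.derivative ℕ A * B + PowerSeries.derivative ℕ B * A := by
    rw [Derivation.leibniz]
    simp only [smul_eq_mul]
    ring
  rw [e1, e2, map_add, map_add]
  exact add_le_add (coeff_mul_le h1 m) (coeff_mul_le h2 m)

theorem Rp_one : Rp 0 (1 : PowerSeries ℕ) := by
  intro m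
  simp

theorem Rp_pow {r : ℕ} {A : PowerSeries ℕ} (h : Rp r A) (k : ℕ) : Rp (r * k) (A ^ k) := by
  induction k with
  | zero => simpa using Rp_one
  | succ k ih =>
    rw [pow_succ, Nat.mul_succ]
    exact Rp_mul ih h

theorem Rp_y (hG : S_GRW) (r : ℕ) : Rp r (gf (y r)) := by
  intro m
  rw [coeff_gf, coeff_gf]
  exact hG r m

end Pool.Agent.H89.DP
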