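import Pool.Agent.H89.DP.Up

/-! Rank sizes of differential posets (MP_987dc0_co): the estimates for the constructions. -/

set_option autoImplicit false

namespace Pool.Agent.H89.DP

open PowerSeries

theorem conv_range (A B : PowerSeries ℕ) (n : ℕ) : PowerSeries.coeff n (A * B) =
    ∑ i ∈ Finset.range (n + 1), PowerSeries.coeff i A * PowerSeries.coeff (n - i) B := by
  rw [PowerSeries.coeff_mul]
  exact Finset.Nat.sum_antidiagonal_eq_sum_range_succ
    (fun i j => PowerSeries.coeff i A * PowerSeries.coeff j B) n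

section

variable (q : ℕ → ℕ)

theorem step_q (k s n : ℕ) : PowerSeries.coeff n (gf q ^ (k + 1) * gf (y s)) =
    ∑ i ∈ Finset.range (n + 1), q i * PowerSeries.coeff (n - i) (gf q ^ k * gf (y s)) := by
  have : gf q ^ (k + 1) * gf (y s) = gf q * (gf q ^ k * gf (y s)) := by ring
  rw [this, conv_range]
  simp only [coeff_gf]

theorem step_y (hC : S_CNV) (k s n : ℕ) : PowerSeries.coeff n (gf q ^ k * gf (y (s + 3))) =
    ∑ i ∈ Finset.range (n + 1), y 3 i * PowerSeries.coeff (n - i) (gf q ^ k * gf (y s)) := by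
  have : gf q ^ k * gf (y (s + 3)) = gf (y 3) * (gf q ^ k * gf (y s)) := by
    rw [gf_y_add hC]; ring
  rw [this, conv_range]
  simp only [coeff_gf]

theorem coeff_zero_F (hq0 : q 0 = 1) (hy : ∀ s, y s 0 = 1) (k s : ℕ) :
    PowerSeries.coeff 0 (gf q ^ k * gf (y s)) = 1 := by
  induction k with
  | zero => rw [pow_zero, one_mul, coeff_gf, hy]
  | succ k ih =>
    rw [step_q]
    simp [hq0, ih]

theorem exact_low (hC : S_CNV) (hq : ∀ i ≤ 3, q i = y 3 i) (k : ℕ) : ∀ s n : ℕ, n ≤ 3 →
    PowerSeries.coeff n (gf q ^ k * gf (y s)) = y (3 * k + s) n := by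
  induction k with
  | zero => intro s n _; rw [pow_zero, one_mul, coeff_gf, Nat.mul_zero, Nat.zero_add]
  | succ k ih =>
    intro s n hn
    have h1 := ih (s + 3) n hn
    rw [step_y q hC] at h1
    rw [step_q, show 3 * (k + 1) + s = 3 * k + (s + 3) by ring, ← h1]
    apply Finset.sum_congr rfl
    intro i hi
    rw [hq i (by rw [Finset.mem_range] at hi; omega)]

theorem exact_four (hC : S_CNV) (hq : ∀ i ≤ 3, q i = y 3 i) (hq4 : q 4 + 1 = y 3 4)
    (hy : ∀ s, y s 0 = 1) (hq0 : q 0 = 1) (k : ℕ) : ∀ s : ℕ,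
    PowerSeries.coeff 4 (gf q ^ k * gf (y s)) + k = y (3 * k + s) 4 := by
  induction k with
  | zero => intro s; rw [pow_zero, one_mul, coeff_gf, Nat.mul_zero, Nat.zero_add, Nat.add_zero]
  | succ k ih =>
    intro s
    have h1 := ih (s + 3)
    rw [step_y q hC] at h1
    rw [step_q, show 3 * (k + 1) + s = 3 * k + (s + 3) by ring, ← h1]
    have h0 := coeff_zero_F q hq0 hy k s
    rw [Finset.sum_range_succ, Finset.sum_range_succ (n := 4)]
    rw [← hq4, Nat.sub_self, h0]
    have : ∑ i ∈ Finset.range 4, q i * PowerSeries.coeff (4 - i) (gf q ^ k * gf (y s)) =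
        ∑ i ∈ Finset.range 4, y 3 i * PowerSeries.coeff (4 - i) (gf q ^ k * gf (y s)) := by
      apply Finset.sum_congr rfl
      intro i hi
      rw [hq i (by rw [Finset.mem_range] at hi; omega)]
    rw [this]
    ring

end

/-- iterating the growth property upwards -/
theorem Rp_fact {r : ℕ} {A : PowerSeries ℕ} (h : Rp r A) (h0 : PowerSeries.coeff 0 A = 1) (m : ℕ) :
    r ^ m ≤ m.factorial * PowerSeries.coeff m A := by
  induction m with
  | zero => simp [h0]
  | succ m ih =>
    have := h m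
    calc r ^ (m + 1) = r * r ^ m := by ring
      _ ≤ r * (m.factorial * PowerSeries.coeff m A) := Nat.mul_le_mul_left _ ih
      _ = m.factorial * (r * PowerSeries.coeff m A) := by ring
      _ ≤ m.factorial * ((m + 1) * PowerSeries.coeff (m + 1) A) := Nat.mul_le_mul_left _ this
      _ = (m + 1).factorial * PowerSeries.coeff (m + 1) A := by rw [Nat.factorial_succ]; ring

/-- iterating the growth property downwards from `N` -/
theorem Rp_down {r N : ℕ} {a : ℕ → ℕ} (h : ∀ m, r * a m ≤ (m + 1) * a (m + 1)) (hr : 516 * N ≤ r)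
    (i : ℕ) (hi : i < N) : (a (N - 1 - i) : ℚ) ≤ (1 / 516) ^ (i + 1) * (a N : ℚ) := by
  have hN : 1 ≤ N := by omega
  have hstep : ∀ m, m < N → (516 : ℚ) * (a m : ℚ) ≤ (a (m + 1) : ℚ) := by
    intro m hm
    have h1 := h m
    have h2 : (r : ℚ) * (a m : ℚ) ≤ (m + 1) * (a (m + 1) : ℚ) := by
      exact_mod_cast h1
    have h3 : ((m : ℚ) + 1) ≤ N := by exact_mod_cast hm
    have h4 : (516 : ℚ) * N ≤ r := by exact_mod_cast hr
    have h5 : (0 : ℚ) ≤ (a m : ℚ) := by positivity
    have h6 : (0 : ℚ) ≤ (a (m + 1) : ℚ) := by positivity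
    have h7 : (N : ℚ) * (516 * (a m : ℚ)) ≤ N * (a (m + 1) : ℚ) := by
      calc (N : ℚ) * (516 * (a m : ℚ)) = (516 * N) * (a m : ℚ) := by ring
        _ ≤ r * (a m : ℚ) := mul_le_mul_of_nonneg_right h4 h5
        _ ≤ (m + 1) * (a (m + 1) : ℚ) := h2
        _ ≤ N * (a (m + 1) : ℚ) := mul_le_mul_of_nonneg_right h3 h6
    exact le_of_mul_le_mul_left h7 (by exact_mod_cast hN)
  induction i with
  | zero =>
    have h1 := hstep (N - 1) (by omega)
    rw [Nat.sub_add_cancel hN] at h1
    rw [Nat.sub_zero]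
    linarith
  | succ i ih =>
    have h1 := hstep (N - 1 - (i + 1)) (by omega)
    rw [show N - 1 - (i + 1) + 1 = N - 1 - i by omega] at h1
    have h2 := ih (by omega)
    rw [pow_succ]
    linarith

theorem geo (N : ℕ) : ∑ i ∈ Finset.range N, (255 * 4 ^ i : ℚ) * (1 / 516) ^ (i + 1) ≤
    1 / 2 * (1 - (1 / 129) ^ N) := by
  induction N with
  | zero => simp
  | succ N ih =>
    rw [Finset.sum_range_succ]
    have : (255 * 4 ^ N : ℚ) * (1 / 516) ^ (N + 1) = 255 / 516 * (1 / 129) ^ N := by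
      rw [pow_succ, show (1 / 129 : ℚ) = 4 * (1 / 516) by norm_num, mul_pow]
      ring
    rw [this, pow_succ]
    have h0 : (0 : ℚ) < (1 / 129) ^ N := by positivity
    linarith

end Pool.Agent.H89.DP
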