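import Pool.Agent.H89.DP.Up2

/-! Rank sizes of differential posets (MP_987dc0_co): the estimates for the constructions. -/

set_option autoImplicit false

namespace Pool.Agent.H89.DP

open PowerSeries

/-- the trivial upper bound for the rank sizes -/
theorem gen (hFA : S_FA) (hG1 : S_G1) (hG2 : S_G2) {r : ℕ} {P : Type} [PartialOrder P] [OrderBot P]
    [LocallyFiniteOrder P] {ρ : P → ℕ} (h : IsDiff r P ρ) : ∃ e : ℕ → ℚ, e 0 = 0 ∧
    ∀ n, e (n + 1) = e n + r * ({x : P | ρ x = n}.ncard : ℚ) ∧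
      ({x : P | ρ x = n + 1}.ncard : ℚ) ≤ e (n + 1) := by
  have f := (hG1 r P ρ h).1
  refine ⟨fun n => ∑ z ∈ (h.fin n).toFinset, (dn z : ℚ), ?_, ?_⟩
  · apply Finset.sum_eq_zero
    intro z hz
    have hz0 : ρ z = 0 := (mem_rank h).1 hz
    have : {w : P | w ⋖ z} = ∅ := by
      ext w
      constructor
      · intro hw
        have := h.cov w z hw
        omega
      · intro hw
        exact absurd hw (Set.notMem_empty _)
    have h2 : dn z = 0 := by
      unfold dn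
      rw [this]; simp
    rw [h2]; simp
  · intro n
    constructor
    · show ∑ z ∈ (h.fin (n + 1)).toFinset, (dn z : ℚ) = _
      rw [cnt hFA hG2 h f n (fun c => (c : ℚ))]
      have e1 : ∀ x ∈ (h.fin n).toFinset, ∑ z ∈ (h.deg x).1.toFinset, ((dn z : ℚ)) / dn z =
          dn x + r := by
        intro x _
        have e2 : ∀ z ∈ (h.deg x).1.toFinset, ((dn z : ℚ)) / dn z = 1 := by
          intro z hz
          have := dn_pos_of_cov f ((mem_up h).1 hz)
          exact div_self (by exact_mod_cast (by omega : dn z ≠ 0))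
        rw [Finset.sum_congr rfl e2, Finset.sum_const, card_up h x]
        simp
      rw [Finset.sum_congr rfl e1, Finset.sum_add_distrib, Finset.sum_const, card_rank h n]
      simp [mul_comm]
    · show _ ≤ ∑ z ∈ (h.fin (n + 1)).toFinset, (dn z : ℚ)
      rw [← card_rank h (n + 1)]
      have : (((h.fin (n + 1)).toFinset.card : ℕ) : ℚ) = ∑ z ∈ (h.fin (n + 1)).toFinset, (1 : ℚ) := by
        simp
      rw [this]
      apply Finset.sum_le_sum
      intro z hz
      have := (hFA r P ρ h).2.2.1 z (by rw [mem_rank h] at hz; omega)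
      exact_mod_cast this

/-- the base sequence -/
theorem base (hFA : S_FA) (hG1 : S_G1) (hG2 : S_G2) (hI : S_INJ) (hB : S_BASE) :
    ∃ q : ℕ → ℕ, D 3 q ∧ q 0 = 1 ∧ q 1 = 3 ∧ q 2 = 9 ∧ q 3 = 22 ∧ q 4 = 50 ∧
      (∀ m, 3 * q m ≤ (m + 1) * q (m + 1)) ∧ ∀ i, (q (5 + i) : ℚ) ≤ 255 * 4 ^ i := by
  obtain ⟨q, hD, h0, h1, h2, h3, h4⟩ := hB.2
  refine ⟨q, hD, h0, h1, h2, h3, h4, ?_, ?_⟩
  · obtain ⟨P, _, _, _, ρ, hP, hq⟩ := hD
    have hmono : ∀ m, q m ≤ q (m + 1) := by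
      intro m
      rw [← hq m, ← hq (m + 1)]
      exact hI 3 P ρ (by norm_num) hP m
    intro m
    rcases m with _ | _ | m
    · rw [h0, h1]
    · rw [h1, h2]; norm_num
    · have := hmono (m + 2)
      calc 3 * q (m + 2) ≤ (m + 2 + 1) * q (m + 2) := Nat.mul_le_mul_right _ (by omega)
        _ ≤ (m + 2 + 1) * q (m + 2 + 1) := Nat.mul_le_mul_left _ this
  · obtain ⟨P, _, _, _, ρ, hP, hq⟩ := hD
    obtain ⟨e, he0, he⟩ := gen hFA hG1 hG2 hP
    have e1 : e 1 = 3 := by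
      rw [(he 0).1, he0, hq 0, h0]; norm_num
    have e2 : e 2 = 12 := by
      rw [(he 1).1, e1, hq 1, h1]; norm_num
    have e3 : e 3 = 39 := by
      rw [(he 2).1, e2, hq 2, h2]; norm_num
    have e4 : e 4 = 105 := by
      rw [(he 3).1, e3, hq 3, h3]; norm_num
    have e5 : e 5 = 255 := by
      rw [(he 4).1, e4, hq 4, h4]; norm_num
    have key : ∀ i, e (5 + i) ≤ 255 * 4 ^ i := by
      intro i
      induction i with
      | zero => rw [Nat.add_zero, e5]; norm_num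
      | succ i ih =>
        have h5 := (he (5 + i)).1
        have h6 := (he (4 + i)).2
        rw [show 4 + i + 1 = 5 + i by ring] at h6
        rw [show 5 + (i + 1) = 5 + i + 1 by ring, h5, pow_succ]
        push_cast
        linarith
    intro i
    have h6 := (he (4 + i)).2
    rw [show 4 + i + 1 = 5 + i by ring, hq] at h6
    exact h6.trans (key i)

/-- one replacement of `Y^3` by the base poset saves half of the rank `N` -/
theorem one_step (hC : S_CNV) {q : ℕ → ℕ} (hq : ∀ i ≤ 3, q i = y 3 i) (hq4 : q 4 + 1 = y 3 4)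
    (hq5 : ∀ i, (q (5 + i) : ℚ) ≤ 255 * 4 ^ i) (k s N : ℕ)
    (hR : Rp (3 * k + s) (gf q ^ k * gf (y s))) (hr : 516 * N ≤ 3 * k + s) :
    ((PowerSeries.coeff (N + 4) (gf q ^ (k + 1) * gf (y s)) : ℕ) : ℚ) +
      ((PowerSeries.coeff N (gf q ^ k * gf (y s)) : ℕ) : ℚ) / 2 ≤
      ((PowerSeries.coeff (N + 4) (gf q ^ k * gf (y (s + 3))) : ℕ) : ℚ) := by
  rw [step_y q hC, step_q]
  set f : ℕ → ℕ := fun m => PowerSeries.coeff m (gf q ^ k * gf (y s)) with hf
  have hR' : ∀ m, (3 * k + s) * f m ≤ (m + 1) * f (m + 1) := hR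
  show ((∑ i ∈ Finset.range (N + 4 + 1), q i * f (N + 4 - i) : ℕ) : ℚ) + (f N : ℚ) / 2 ≤
    ((∑ i ∈ Finset.range (N + 4 + 1), y 3 i * f (N + 4 - i) : ℕ) : ℚ)
  rw [show N + 4 + 1 = 5 + N by ring, Finset.sum_range_add, Finset.sum_range_add,
    Finset.sum_range_succ, Finset.sum_range_succ (n := 4)]
  have h1 : ∑ i ∈ Finset.range 4, q i * f (N + 4 - i) = ∑ i ∈ Finset.range 4, y 3 i * f (N + 4 - i) := by
    apply Finset.sum_congr rfl
    intro i hi
    rw [hq i (by rw [Finset.mem_range] at hi; omega)]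
  have h2 : ((∑ i ∈ Finset.range N, q (5 + i) * f (N + 4 - (5 + i)) : ℕ) : ℚ) ≤ (f N : ℚ) / 2 := by
    push_cast
    calc ∑ i ∈ Finset.range N, (q (5 + i) : ℚ) * (f (N + 4 - (5 + i)) : ℚ)
        ≤ ∑ i ∈ Finset.range N, ((255 * 4 ^ i : ℚ) * (1 / 516) ^ (i + 1)) * (f N : ℚ) := by
          apply Finset.sum_le_sum
          intro i hi
          have hi' : i < N := Finset.mem_range.1 hi
          rw [show N + 4 - (5 + i) = N - 1 - i by omega, mul_assoc]
          exact mul_le_mul (hq5 i) (Rp_down hR' hr i hi') (by positivity) (by positivity)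
      _ = (∑ i ∈ Finset.range N, (255 * 4 ^ i : ℚ) * (1 / 516) ^ (i + 1)) * (f N : ℚ) := by
          rw [Finset.sum_mul]
      _ ≤ (1 / 2) * (f N : ℚ) := by
          apply mul_le_mul_of_nonneg_right _ (by positivity)
          have := geo N
          have h0 : (0 : ℚ) < (1 / 129) ^ N := by positivity
          linarith
      _ = (f N : ℚ) / 2 := by ring
  have h3 : (0 : ℚ) ≤ ((∑ i ∈ Finset.range N, y 3 (5 + i) * f (N + 4 - (5 + i)) : ℕ) : ℚ) := by positivity
  rw [h1, ← hq4, Nat.add_sub_cancel]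
  push_cast at h2 h3 ⊢
  nlinarith

/-- the construction in all ranks -/
theorem many_steps (hC : S_CNV) {q : ℕ → ℕ} (hq : ∀ i ≤ 3, q i = y 3 i) (hq4 : q 4 + 1 = y 3 4)
    (hq0 : q 0 = 1) (hy : ∀ s, y s 0 = 1)
    (hq5 : ∀ i, (q (5 + i) : ℚ) ≤ 255 * 4 ^ i) (hqR : Rp 3 (gf q)) (hG : S_GRW) (N : ℕ) (k : ℕ) :
    ∀ s : ℕ, 516 * N + 3 ≤ 3 * k + s →
    ((PowerSeries.coeff (N + 4) (gf q ^ k * gf (y s)) : ℕ) : ℚ) +
      k * (((3 * k + s : ℕ) : ℚ) - 3) ^ N / (2 * N.factorial) ≤ (y (3 * k + s) (N + 4) : ℚ) := by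
  induction k with
  | zero => intro s _; rw [pow_zero, one_mul, coeff_gf]; simp
  | succ k ih =>
    intro s hs
    have h1 := ih (s + 3) (by omega)
    have hR : Rp (3 * k + s) (gf q ^ k * gf (y s)) := Rp_mul (Rp_pow hqR k) (Rp_y hG s)
    have h2 := one_step hC hq hq4 hq5 k s N hR (by omega)
    have h3 := Rp_fact hR (coeff_zero_F q hq0 hy k s) N
    have h4 : ((3 * k + s : ℕ) : ℚ) ^ N ≤
        N.factorial * ((PowerSeries.coeff N (gf q ^ k * gf (y s)) : ℕ) : ℚ) := by exact_mod_cast h3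
    have h5 : ((3 * k + s : ℕ) : ℚ) ^ N / (2 * N.factorial) ≤
        ((PowerSeries.coeff N (gf q ^ k * gf (y s)) : ℕ) : ℚ) / 2 := by
      rw [div_le_div_iff₀ (by positivity) (by norm_num)]
      nlinarith
    rw [show 3 * (k + 1) + s = 3 * k + (s + 3) by ring]
    have e1 : ((3 * k + (s + 3) : ℕ) : ℚ) - 3 = ((3 * k + s : ℕ) : ℚ) := by push_cast; ring
    rw [e1] at h1 ⊢
    have e2 : ((k + 1 : ℕ) : ℚ) * ((3 * k + s : ℕ) : ℚ) ^ N / (2 * N.factorial) =
        (k : ℚ) * ((3 * k + s : ℕ) : ℚ) ^ N / (2 * N.factorial) +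
        ((3 * k + s : ℕ) : ℚ) ^ N / (2 * N.factorial) := by
      push_cast; ring
    rw [e2]
    linarith

end Pool.Agent.H89.DP
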