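import Pool.Agent.H89.DP.Up3

/-! Rank sizes of differential posets (MP_987dc0_co): sharper estimates for the constructions. -/

set_option autoImplicit false

namespace Pool.Agent.H89.DP

open PowerSeries

/-- iterating the growth property downwards from `N` -/
theorem Rp_down' {r N : ℕ} {a : ℕ → ℕ} (h : ∀ m, r * a m ≤ (m + 1) * a (m + 1)) (hr : 0 < r)
    (i : ℕ) (hi : i < N) : (a (N - 1 - i) : ℚ) ≤ ((N : ℚ) / r) ^ (i + 1) * (a N : ℚ) := by
  have hN : 1 ≤ N := by omega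
  have hr' : (0 : ℚ) < r := by exact_mod_cast hr
  have hstep : ∀ m, m < N → (a m : ℚ) ≤ ((N : ℚ) / r) * (a (m + 1) : ℚ) := by
    intro m hm
    have h1 := h m
    have h2 : (r : ℚ) * (a m : ℚ) ≤ (m + 1) * (a (m + 1) : ℚ) := by
      exact_mod_cast h1
    have h3 : ((m : ℚ) + 1) ≤ N := by exact_mod_cast hm
    have h6 : (0 : ℚ) ≤ (a (m + 1) : ℚ) := by positivity
    have h7 : (r : ℚ) * (a m : ℚ) ≤ N * (a (m + 1) : ℚ) :=
      h2.trans (mul_le_mul_of_nonneg_right h3 h6)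
    rw [div_mul_eq_mul_div, le_div_iff₀ hr']
    linarith
  induction i with
  | zero =>
    have h1 := hstep (N - 1) (by omega)
    rw [Nat.sub_add_cancel hN] at h1
    rw [Nat.sub_zero]
    simpa using h1
  | succ i ih =>
    have h1 := hstep (N - 1 - (i + 1)) (by omega)
    rw [show N - 1 - (i + 1) + 1 = N - 1 - i by omega] at h1
    have h2 := ih (by omega)
    have hx : (0 : ℚ) ≤ (N : ℚ) / r := by positivity
    calc (a (N - 1 - (i + 1)) : ℚ) ≤ ((N : ℚ) / r) * (a (N - 1 - i) : ℚ) := h1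
      _ ≤ ((N : ℚ) / r) * (((N : ℚ) / r) ^ (i + 1) * (a N : ℚ)) := mul_le_mul_of_nonneg_left h2 hx
      _ = ((N : ℚ) / r) ^ (i + 1 + 1) * (a N : ℚ) := by ring

theorem geo1 (N : ℕ) : ∑ i ∈ Finset.range N, (1 / 129 : ℚ) ^ i ≤ 129 / 128 * (1 - (1 / 129) ^ N) := by
  induction N with
  | zero => simp
  | succ N ih =>
    rw [Finset.sum_range_succ, pow_succ]
    have h0 : (0 : ℚ) < (1 / 129) ^ N := by positivity
    linarith

theorem geo2 (N : ℕ) (x : ℚ) (hx0 : 0 ≤ x) (hx : x ≤ 1 / 516) :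
    ∑ i ∈ Finset.range N, (255 * 4 ^ i : ℚ) * x ^ (i + 1) ≤ 260 * x := by
  calc ∑ i ∈ Finset.range N, (255 * 4 ^ i : ℚ) * x ^ (i + 1)
      ≤ ∑ i ∈ Finset.range N, 255 * x * (1 / 129 : ℚ) ^ i := by
        apply Finset.sum_le_sum
        intro i _
        have h1 : (4 * x) ^ i ≤ (1 / 129 : ℚ) ^ i :=
          pow_le_pow_left₀ (by positivity) (by linarith) i
        calc (255 * 4 ^ i : ℚ) * x ^ (i + 1) = 255 * x * (4 * x) ^ i := by
              rw [mul_pow, pow_succ]; ring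
          _ ≤ 255 * x * (1 / 129 : ℚ) ^ i := mul_le_mul_of_nonneg_left h1 (by positivity)
    _ = 255 * x * ∑ i ∈ Finset.range N, (1 / 129 : ℚ) ^ i := by rw [Finset.mul_sum]
    _ ≤ 255 * x * (129 / 128 * 1) := by
        apply mul_le_mul_of_nonneg_left _ (by positivity)
        have h1 := geo1 N
        have h0 : (0 : ℚ) < (1 / 129) ^ N := by positivity
        linarith
    _ ≤ 260 * x := by nlinarith

/-- one replacement of `Y^3` by the base poset saves nearly the rank `N` -/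
theorem one_step' (hC : S_CNV) {q : ℕ → ℕ} (hq : ∀ i ≤ 3, q i = y 3 i) (hq4 : q 4 + 1 = y 3 4)
    (hq5 : ∀ i, (q (5 + i) : ℚ) ≤ 255 * 4 ^ i) (k s N : ℕ)
    (hR : Rp (3 * k + s) (gf q ^ k * gf (y s))) (hr : 516 * N ≤ 3 * k + s) :
    ((PowerSeries.coeff (N + 4) (gf q ^ (k + 1) * gf (y s)) : ℕ) : ℚ) +
      (1 - 260 * N / ((3 * k + s : ℕ) : ℚ)) * ((PowerSeries.coeff N (gf q ^ k * gf (y s)) : ℕ) : ℚ) ≤
      ((PowerSeries.coeff (N + 4) (gf q ^ k * gf (y (s + 3))) : ℕ) : ℚ) := by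
  rw [step_y q hC, step_q]
  set f : ℕ → ℕ := fun m => PowerSeries.coeff m (gf q ^ k * gf (y s)) with hf
  have hR' : ∀ m, (3 * k + s) * f m ≤ (m + 1) * f (m + 1) := hR
  show ((∑ i ∈ Finset.range (N + 4 + 1), q i * f (N + 4 - i) : ℕ) : ℚ) +
    (1 - 260 * N / ((3 * k + s : ℕ) : ℚ)) * (f N : ℚ) ≤
    ((∑ i ∈ Finset.range (N + 4 + 1), y 3 i * f (N + 4 - i) : ℕ) : ℚ)
  rw [show N + 4 + 1 = 5 + N by ring, Finset.sum_range_add, Finset.sum_range_add,
    Finset.sum_range_succ, Finset.sum_range_succ (n := 4)]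
  have h1 : ∑ i ∈ Finset.range 4, q i * f (N + 4 - i) = ∑ i ∈ Finset.range 4, y 3 i * f (N + 4 - i) := by
    apply Finset.sum_congr rfl
    intro i hi
    rw [hq i (by rw [Finset.mem_range] at hi; omega)]
  have h2 : ((∑ i ∈ Finset.range N, q (5 + i) * f (N + 4 - (5 + i)) : ℕ) : ℚ) ≤
      (260 * N / ((3 * k + s : ℕ) : ℚ)) * (f N : ℚ) := by
    rcases Nat.eq_zero_or_pos N with hN | hN
    · subst hN
      simp
    have hpos : 0 < 3 * k + s := by omega
    have hpos' : (0 : ℚ) < ((3 * k + s : ℕ) : ℚ) := by exact_mod_cast hpos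
    have hx : (N : ℚ) / ((3 * k + s : ℕ) : ℚ) ≤ 1 / 516 := by
      rw [div_le_div_iff₀ hpos' (by norm_num)]
      have : (516 * N : ℚ) ≤ ((3 * k + s : ℕ) : ℚ) := by exact_mod_cast hr
      linarith
    rw [Nat.cast_sum]
    calc ∑ i ∈ Finset.range N, ((q (5 + i) * f (N + 4 - (5 + i)) : ℕ) : ℚ)
        ≤ ∑ i ∈ Finset.range N, ((255 * 4 ^ i : ℚ) * ((N : ℚ) / ((3 * k + s : ℕ) : ℚ)) ^ (i + 1)) *
            (f N : ℚ) := by
          apply Finset.sum_le_sum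
          intro i hi
          have hi' : i < N := Finset.mem_range.1 hi
          rw [show N + 4 - (5 + i) = N - 1 - i by omega, mul_assoc, Nat.cast_mul]
          exact mul_le_mul (hq5 i) (Rp_down' hR' hpos i hi') (by positivity) (by positivity)
      _ = (∑ i ∈ Finset.range N, (255 * 4 ^ i : ℚ) * ((N : ℚ) / ((3 * k + s : ℕ) : ℚ)) ^ (i + 1)) *
            (f N : ℚ) := by
          rw [Finset.sum_mul]
      _ ≤ (260 * ((N : ℚ) / ((3 * k + s : ℕ) : ℚ))) * (f N : ℚ) := by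
          apply mul_le_mul_of_nonneg_right _ (by positivity)
          exact geo2 N _ (by positivity) hx
      _ = (260 * N / ((3 * k + s : ℕ) : ℚ)) * (f N : ℚ) := by ring
  have h3 : (0 : ℚ) ≤ ((∑ i ∈ Finset.range N, y 3 (5 + i) * f (N + 4 - (5 + i)) : ℕ) : ℚ) := by positivity
  rw [h1, ← hq4, Nat.add_sub_cancel]
  generalize (∑ i ∈ Finset.range N, q (5 + i) * f (N + 4 - (5 + i)) : ℕ) = U at h2 ⊢
  generalize (∑ i ∈ Finset.range N, y 3 (5 + i) * f (N + 4 - (5 + i)) : ℕ) = V at h3 ⊢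
  push_cast at h2 h3 ⊢
  linarith

/-- the construction in all ranks -/
theorem many_steps' (hC : S_CNV) {q : ℕ → ℕ} (hq : ∀ i ≤ 3, q i = y 3 i) (hq4 : q 4 + 1 = y 3 4)
    (hq0 : q 0 = 1) (hy : ∀ s, y s 0 = 1)
    (hq5 : ∀ i, (q (5 + i) : ℚ) ≤ 255 * 4 ^ i) (hqR : Rp 3 (gf q)) (hG : S_GRW) (N : ℕ) (k : ℕ) :
    ∀ s : ℕ, 516 * N + 3 ≤ 3 * k + s →
    ((PowerSeries.coeff (N + 4) (gf q ^ k * gf (y s)) : ℕ) : ℚ) +
      k * ((1 - 260 * N / (((3 * k + s : ℕ) : ℚ) - 3)) * ((((3 * k + s : ℕ) : ℚ) - 3) ^ N / N.factorial))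
        ≤ (y (3 * k + s) (N + 4) : ℚ) := by
  induction k with
  | zero => intro s _; rw [pow_zero, one_mul, coeff_gf]; simp
  | succ k ih =>
    intro s hs
    have h1 := ih (s + 3) (by omega)
    have hR : Rp (3 * k + s) (gf q ^ k * gf (y s)) := Rp_mul (Rp_pow hqR k) (Rp_y hG s)
    have h2 := one_step' hC hq hq4 hq5 k s N hR (by omega)
    have h3 := Rp_fact hR (coeff_zero_F q hq0 hy k s) N
    have h4 : ((3 * k + s : ℕ) : ℚ) ^ N ≤
        N.factorial * ((PowerSeries.coeff N (gf q ^ k * gf (y s)) : ℕ) : ℚ) := by exact_mod_cast h3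
    have h5 : ((3 * k + s : ℕ) : ℚ) ^ N / N.factorial ≤
        ((PowerSeries.coeff N (gf q ^ k * gf (y s)) : ℕ) : ℚ) := by
      rw [div_le_iff₀ (by positivity)]
      linarith
    have h6 : (0 : ℚ) ≤ 1 - 260 * N / ((3 * k + s : ℕ) : ℚ) := by
      rcases Nat.eq_zero_or_pos N with hN | hN
      · subst hN
        simp
      have hpos' : (0 : ℚ) < ((3 * k + s : ℕ) : ℚ) := by exact_mod_cast (by omega : 0 < 3 * k + s)
      have : (516 * N : ℚ) ≤ ((3 * k + s : ℕ) : ℚ) := by exact_mod_cast (by omega : 516 * N ≤ 3 * k + s)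
      rw [sub_nonneg, div_le_one hpos']
      have hN0 : (0 : ℚ) ≤ N := by positivity
      linarith
    have h7 := mul_le_mul_of_nonneg_left h5 h6
    rw [show 3 * (k + 1) + s = 3 * k + (s + 3) by ring]
    have e1 : ((3 * k + (s + 3) : ℕ) : ℚ) - 3 = ((3 * k + s : ℕ) : ℚ) := by push_cast; ring
    rw [e1] at h1 ⊢
    generalize (1 - 260 * (N : ℚ) / ((3 * k + s : ℕ) : ℚ)) *
      (((3 * k + s : ℕ) : ℚ) ^ N / (N.factorial : ℚ)) = W at h1 h7 ⊢
    push_cast at h1 ⊢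
    linarith

end Pool.Agent.H89.DP
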